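import Mathlib

/-!
# The Kummer map `A(K) ⊗ ℚ_p → H¹_f(K, V_p A)` is an isomorphism if the `p`-primary part of `Ш` is zero

Abstract version: `A` is a `p`-divisible group with an action `a` of `G`, and `S` is a group of cocycles
that contains the coboundaries.
-/

set_option autoImplicit false

namespace Pool.Agent.J6H22.BK

section abs

variable {A G : Type} [AddCommGroup A] [Mul G] (a : G → A →+ A) (p : ℕ)

/-- the fixed points -/
def Fx : AddSubgroup A where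
  carrier := {P | ∀ σ, a σ P = P}
  zero_mem' := fun σ => map_zero _
  add_mem' := fun {x y} hx hy σ => by rw [map_add, hx σ, hy σ]
  neg_mem' := fun {x} hx σ => by rw [map_neg, hx σ]

/-- the elements of `V_p` -/
def IsVs (x : ℕ → A) : Prop := ∀ n, p • x (n + 1) = x n ∧ ∃ m : ℕ, (p ^ m : ℕ) • x n = 0

/-- the cocycles with values in `V_p` whose coordinates are in `S` -/
def SelC (S : AddSubgroup (G → A)) : AddSubgroup (G → ℕ → A) where
  carrier := {c | (∀ n, (fun σ => c σ n) ∈ S) ∧ ∀ σ, IsVs p (c σ)}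
  zero_mem' := ⟨fun _ => S.zero_mem, fun _ _ => ⟨smul_zero _, 0, smul_zero _⟩⟩
  add_mem' := by
    rintro c d ⟨c1, c2⟩ ⟨d1, d2⟩
    refine ⟨fun n => S.add_mem (c1 n) (d1 n), fun σ n => ?_⟩
    obtain ⟨h1, m, hm⟩ := c2 σ n
    obtain ⟨h2, l, hl⟩ := d2 σ n
    refine ⟨?_, m + l, ?_⟩
    · show p • (c σ (n + 1) + d σ (n + 1)) = c σ n + d σ n
      rw [smul_add, h1, h2]
    · show (p ^ (m + l) : ℕ) • (c σ n + d σ n) = 0
      rw [smul_add, pow_add, mul_comm, mul_smul, hm, smul_zero, mul_comm, mul_smul, hl, smul_zero,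
        add_zero]
  neg_mem' := by
    rintro c ⟨c1, c2⟩
    refine ⟨fun n => S.neg_mem (c1 n), fun σ n => ?_⟩
    obtain ⟨h1, m, hm⟩ := c2 σ n
    refine ⟨?_, m, ?_⟩
    · show p • (-c σ (n + 1)) = -c σ n
      rw [smul_neg, h1]
    · show (p ^ m : ℕ) • (-c σ n) = 0
      rw [smul_neg, hm, neg_zero]

/-- the coboundaries of the elements of `V_p` -/
def CobC : AddSubgroup (G → ℕ → A) where
  carrier := {c | ∃ x : ℕ → A, IsVs p x ∧ ∀ σ n, c σ n = a σ (x n) - x n}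
  zero_mem' := ⟨0, fun _ => ⟨smul_zero _, 0, smul_zero _⟩, fun σ n => by
    show (0 : A) = a σ 0 - 0
    rw [map_zero, sub_zero]⟩
  add_mem' := by
    rintro c d ⟨x, hx, hc⟩ ⟨y, hy, hd⟩
    refine ⟨x + y, fun n => ?_, fun σ n => ?_⟩
    · obtain ⟨h1, m, hm⟩ := hx n
      obtain ⟨h2, l, hl⟩ := hy n
      refine ⟨?_, m + l, ?_⟩
      · show p • (x (n + 1) + y (n + 1)) = x n + y n
        rw [smul_add, h1, h2]
      · show (p ^ (m + l) : ℕ) • (x n + y n) = 0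
        rw [smul_add, pow_add, mul_comm, mul_smul, hm, smul_zero, mul_comm, mul_smul, hl, smul_zero,
          add_zero]
    · show c σ n + d σ n = a σ (x n + y n) - (x n + y n)
      rw [hc, hd, map_add]
      abel
  neg_mem' := by
    rintro c ⟨x, hx, hc⟩
    refine ⟨-x, fun n => ?_, fun σ n => ?_⟩
    · obtain ⟨h1, m, hm⟩ := hx n
      refine ⟨?_, m, ?_⟩
      · show p • (-x (n + 1)) = -x n
        rw [smul_neg, h1]
      · show (p ^ m : ℕ) • (-x n) = 0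
        rw [smul_neg, hm, neg_zero]
    · show -c σ n = a σ (-x n) - -x n
      rw [hc, map_neg]
      abel

variable {p} [hp : Fact p.Prime]

omit [Mul G] in
lemma eq_smul {y : A} {m : ℕ} (hy : (p ^ m : ℕ) • y = 0) {s t : ℤ}
    (h : ((p : ℤ_[p]) ^ m) ∣ (s : ℤ_[p]) - t) : s • y = t • y := by
  have h1 : ((p : ℤ_[p]) ^ m) ∣ ((s - t : ℤ) : ℤ_[p]) := by
    push_cast
    exact h
  have h2 : ((p : ℤ) ^ m) ∣ s - t := by
    have := (PadicInt.pow_p_dvd_int_iff m (s - t)).1 h1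
    exact_mod_cast this
  obtain ⟨u, hu⟩ := h2
  have h3 : s = t + u * (p ^ m : ℕ) := by
    push_cast
    linarith
  rw [h3, add_smul, mul_smul, natCast_zsmul, hy, smul_zero, add_zero]

omit [Mul G] in
lemma eq_nsmul {y : A} {m : ℕ} (hy : (p ^ m : ℕ) • y = 0) {s t : ℕ}
    (h : ((p : ℤ_[p]) ^ m) ∣ (s : ℤ_[p]) - t) : s • y = t • y := by
  have := eq_smul hy (s := s) (t := t) (by push_cast; exact h)
  rwa [natCast_zsmul, natCast_zsmul] at this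

lemma appr_dvd (z : ℤ_[p]) (m : ℕ) : ((p : ℤ_[p]) ^ m) ∣ z - (z.appr m : ℤ_[p]) :=
  Ideal.mem_span_singleton.1 (PadicInt.appr_spec m z)

omit [Mul G] in
/-- `appr` of a sum -/
lemma appr_add {y : A} {m : ℕ} (hy : (p ^ m : ℕ) • y = 0) (z w : ℤ_[p]) :
    (z + w).appr m • y = z.appr m • y + w.appr m • y := by
  rw [← add_smul]
  apply eq_nsmul hy
  have h1 := appr_dvd (z + w) m
  have h2 := appr_dvd z m
  have h3 := appr_dvd w m
  have h4 : ((z + w).appr m : ℤ_[p]) - ((z.appr m + w.appr m : ℕ) : ℤ_[p]) =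
      (z - (z.appr m : ℤ_[p])) + (w - (w.appr m : ℤ_[p])) - ((z + w) - ((z + w).appr m : ℤ_[p])) := by
    push_cast
    ring
  rw [h4]
  exact dvd_sub (dvd_add h2 h3) h1

omit [Mul G] in
/-- a multiple of `z` by a natural number -/
lemma appr_mul {y : A} {m : ℕ} (hy : (p ^ m : ℕ) • y = 0) (c : ℕ) (z : ℤ_[p]) :
    ((c : ℤ_[p]) * z).appr m • y = c • (z.appr m • y) := by
  rw [smul_smul]
  apply eq_nsmul hy
  have h1 := appr_dvd ((c : ℤ_[p]) * z) m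
  have h2 := appr_dvd z m
  have h4 : ((((c : ℤ_[p]) * z).appr m : ℕ) : ℤ_[p]) - ((c * z.appr m : ℕ) : ℤ_[p]) =
      (c : ℤ_[p]) * (z - (z.appr m : ℤ_[p])) - ((c : ℤ_[p]) * z - (((c : ℤ_[p]) * z).appr m : ℤ_[p])) := by
    push_cast
    ring
  rw [h4]
  exact dvd_sub (Dvd.dvd.mul_left h2 _) h1

omit [Mul G] in
lemma appr_le {y : A} {m n : ℕ} (hy : (p ^ m : ℕ) • y = 0) (hmn : m ≤ n) (z : ℤ_[p]) :
    z.appr n • y = z.appr m • y := by
  apply eq_nsmul hy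
  have h1 := appr_dvd z m
  have h2 := (pow_dvd_pow (p : ℤ_[p]) hmn).trans (appr_dvd z n)
  have h4 : ((z.appr n : ℕ) : ℤ_[p]) - ((z.appr m : ℕ) : ℤ_[p]) =
      (z - (z.appr m : ℤ_[p])) - (z - (z.appr n : ℤ_[p])) := by
    ring
  rw [h4]
  exact dvd_sub h1 h2

/-- a `p`-divisible sequence whose first term is fixed -/
def IsD (p : ℕ) (Q : ℕ → A) : Prop := (∀ σ, a σ (Q 0) = Q 0) ∧ ∀ n, p • Q (n + 1) = Q n

/-- `p^(-k) z` times the Kummer cocycle of `Q` -/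
noncomputable def kz (Q : ℕ → A) (z : ℤ_[p]) (k : ℕ) : G → ℕ → A :=
  fun σ n => z.appr (n + k) • (a σ (Q (n + k)) - Q (n + k))

variable {a}

omit [Mul G] hp in
lemma d_pow {Q : ℕ → A} (hQ : ∀ n, p • Q (n + 1) = Q n) (n k : ℕ) :
    (p ^ k : ℕ) • Q (n + k) = Q n := by
  induction k with
  | zero => simp
  | succ k ih => rw [pow_succ, mul_smul, ← add_assoc, hQ, ih]

omit [Mul G] hp in
lemma d_zero {Q : ℕ → A} (hQ : ∀ n, p • Q (n + 1) = Q n) (k : ℕ) :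
    (p ^ k : ℕ) • Q k = Q 0 := by
  have := d_pow hQ 0 k
  rwa [zero_add] at this

omit [Mul G] hp in
lemma d_tor {Q : ℕ → A} (hQ : IsD a p Q) (σ : G) (k : ℕ) :
    (p ^ k : ℕ) • (a σ (Q k) - Q k) = 0 := by
  rw [nsmul_sub, ← map_nsmul, d_zero hQ.2, hQ.1, sub_self]

omit [Mul G] hp in
lemma d_step {Q : ℕ → A} (hQ : IsD a p Q) (σ : G) (k : ℕ) :
    p • (a σ (Q (k + 1)) - Q (k + 1)) = a σ (Q k) - Q k := by
  rw [nsmul_sub, ← map_nsmul, hQ.2]

omit [Mul G] in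
/-- multiplication of `z` by `p` and of `p^k` by `p` -/
lemma kz_succ {Q : ℕ → A} (hQ : IsD a p Q) (z : ℤ_[p]) (k : ℕ) :
    kz a Q ((p : ℤ_[p]) * z) (k + 1) = kz a Q z k := by
  funext σ n
  show ((p : ℤ_[p]) * z).appr (n + k + 1) • (a σ (Q (n + k + 1)) - Q (n + k + 1)) =
    z.appr (n + k) • (a σ (Q (n + k)) - Q (n + k))
  have h1 : (p ^ (n + k) : ℕ) • (p • (a σ (Q (n + k + 1)) - Q (n + k + 1))) = 0 := by
    rw [smul_smul, ← pow_succ]
    exact d_tor hQ σ _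
  rw [appr_mul (d_tor hQ σ _), ← d_step hQ σ (n + k), smul_comm]
  exact appr_le h1 (Nat.le_succ _) z

omit [Mul G] in
lemma kz_add {Q : ℕ → A} (hQ : IsD a p Q) (z : ℤ_[p]) (k j : ℕ) :
    kz a Q ((p : ℤ_[p]) ^ j * z) (k + j) = kz a Q z k := by
  induction j with
  | zero => rw [pow_zero, one_mul, add_zero]
  | succ j ih => rw [pow_succ', mul_assoc, ← add_assoc, kz_succ hQ, ih]

/-- `k` such that `p^k q` is an integer -/
noncomputable def kk (q : ℚ_[p]) : ℕ :=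
  Classical.choose (show ∃ k : ℕ, ‖q * (p : ℚ_[p]) ^ k‖ ≤ 1 by
    have h1 : (0 : ℝ) < (p : ℝ)⁻¹ := inv_pos.2 (by exact_mod_cast hp.1.pos)
    have h2 : (p : ℝ)⁻¹ < 1 := inv_lt_one_of_one_lt₀ (by exact_mod_cast hp.1.one_lt)
    obtain ⟨k, hk⟩ := exists_pow_lt_of_lt_one (show (0 : ℝ) < 1 / (‖q‖ + 1) by positivity) h2
    refine ⟨k, ?_⟩
    rw [norm_mul, norm_pow, Padic.norm_p]
    have h3 : (0 : ℝ) ≤ ‖q‖ := norm_nonneg _
    calc ‖q‖ * (p : ℝ)⁻¹ ^ k ≤ ‖q‖ * (1 / (‖q‖ + 1)) := by gcongr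
      _ ≤ 1 := by
        rw [mul_one_div, div_le_one (by positivity)]
        linarith)

lemma kk_spec (q : ℚ_[p]) : ‖q * (p : ℚ_[p]) ^ kk q‖ ≤ 1 := Classical.choose_spec (p := fun k : ℕ => ‖q * (p : ℚ_[p]) ^ k‖ ≤ 1) _

/-- `p^k q` -/
noncomputable def zz (q : ℚ_[p]) : ℤ_[p] := ⟨q * (p : ℚ_[p]) ^ kk q, kk_spec q⟩

lemma zz_coe (q : ℚ_[p]) : ((zz q : ℤ_[p]) : ℚ_[p]) = q * (p : ℚ_[p]) ^ kk q := rfl

variable (a) in
/-- `q` times the Kummer cocycle -/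
noncomputable def kq (Q : ℕ → A) (q : ℚ_[p]) : G → ℕ → A := kz a Q (zz q) (kk q)

omit [Mul G] in
lemma kq_eq {Q : ℕ → A} (hQ : IsD a p Q) {q : ℚ_[p]} {z : ℤ_[p]} {k : ℕ}
    (h : (z : ℚ_[p]) = q * (p : ℚ_[p]) ^ k) : kq a Q q = kz a Q z k := by
  rw [kq, ← kz_add hQ (zz q) (kk q) k, ← kz_add hQ z k (kk q), add_comm k]
  congr 1
  apply Subtype.ext
  push_cast
  rw [zz_coe, h]
  ring

omit [Mul G] in
lemma kq_add {Q : ℕ → A} (hQ : IsD a p Q) (q r : ℚ_[p]) :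
    kq a Q (q + r) = kq a Q q + kq a Q r := by
  obtain ⟨k, hk⟩ : ∃ k, k = kk q + kk r := ⟨_, rfl⟩
  have h1 : ((((p : ℤ_[p]) ^ kk r * zz q : ℤ_[p])) : ℚ_[p]) = q * (p : ℚ_[p]) ^ k := by
    push_cast
    rw [zz_coe, hk]
    ring
  have h2 : ((((p : ℤ_[p]) ^ kk q * zz r : ℤ_[p])) : ℚ_[p]) = r * (p : ℚ_[p]) ^ k := by
    push_cast
    rw [zz_coe, hk]
    ring
  have h3 : ((((p : ℤ_[p]) ^ kk r * zz q + (p : ℤ_[p]) ^ kk q * zz r : ℤ_[p])) : ℚ_[p]) =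
      (q + r) * (p : ℚ_[p]) ^ k := by
    rw [PadicInt.coe_add, h1, h2, add_mul]
  rw [kq_eq hQ h1, kq_eq hQ h2, kq_eq hQ h3]
  funext σ n
  exact appr_add (d_tor hQ σ _) _ _

omit [Mul G] in
lemma kq_Q_add {Q R : ℕ → A} (q : ℚ_[p]) :
    kq a (Q + R) q = kq a Q q + kq a R q := by
  funext σ n
  show (zz q).appr (n + kk q) • (a σ (Q (n + kk q) + R (n + kk q)) - (Q (n + kk q) + R (n + kk q))) =
    (zz q).appr (n + kk q) • (a σ (Q (n + kk q)) - Q (n + kk q)) +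
    (zz q).appr (n + kk q) • (a σ (R (n + kk q)) - R (n + kk q))
  rw [map_add, ← smul_add]
  congr 1
  abel

omit [Mul G] in
lemma kq_Q_sub {Q R : ℕ → A} (q : ℚ_[p]) :
    kq a (Q - R) q = kq a Q q - kq a R q := by
  funext σ n
  show (zz q).appr (n + kk q) • (a σ (Q (n + kk q) - R (n + kk q)) - (Q (n + kk q) - R (n + kk q))) =
    (zz q).appr (n + kk q) • (a σ (Q (n + kk q)) - Q (n + kk q)) -
    (zz q).appr (n + kk q) • (a σ (R (n + kk q)) - R (n + kk q))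
  rw [map_sub, ← smul_sub]
  congr 1
  abel

omit [Mul G] hp in
lemma isD_add {Q R : ℕ → A} (hQ : IsD a p Q) (hR : IsD a p R) : IsD a p (Q + R) :=
  ⟨fun σ => by
    show a σ (Q 0 + R 0) = Q 0 + R 0
    rw [map_add, hQ.1, hR.1], fun n => by
    show p • (Q (n + 1) + R (n + 1)) = Q n + R n
    rw [smul_add, hQ.2, hR.2]⟩

omit [Mul G] hp in
lemma isD_sub {Q R : ℕ → A} (hQ : IsD a p Q) (hR : IsD a p R) : IsD a p (Q - R) :=
  ⟨fun σ => by
    show a σ (Q 0 - R 0) = Q 0 - R 0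
    rw [map_sub, hQ.1, hR.1], fun n => by
    show p • (Q (n + 1) - R (n + 1)) = Q n - R n
    rw [nsmul_sub, hQ.2, hR.2]⟩

omit [Mul G] in
/-- the Kummer cocycle of a sequence of torsion points is a coboundary -/
lemma kq_tors {Q : ℕ → A} (hQ : IsD a p Q) (h0 : Q 0 = 0) (q : ℚ_[p]) :
    kq a Q q ∈ CobC a p := by
  have ht : ∀ k, (p ^ k : ℕ) • Q k = 0 := fun k => by rw [d_zero hQ.2, h0]
  refine ⟨fun n => (zz q).appr (n + kk q) • Q (n + kk q), fun n => ⟨?_, n + kk q, ?_⟩, fun σ n => ?_⟩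
  · show p • ((zz q).appr (n + 1 + kk q) • Q (n + 1 + kk q)) = (zz q).appr (n + kk q) • Q (n + kk q)
    rw [smul_comm, add_right_comm, hQ.2]
    exact appr_le (ht _) (Nat.le_succ _) _
  · rw [smul_comm, ht, smul_zero]
  · show (zz q).appr (n + kk q) • (a σ (Q (n + kk q)) - Q (n + kk q)) = _
    rw [map_nsmul, nsmul_sub]

omit [Mul G] in
lemma kz_mem {S : AddSubgroup (G → A)} (hS : ∀ P : A, (fun σ => a σ P - P) ∈ S) {Q : ℕ → A}
    (hQ : IsD a p Q) (z : ℤ_[p]) (k : ℕ) : kz a Q z k ∈ SelC p S := by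
  refine ⟨fun n => ?_, fun σ n => ⟨?_, n + k, ?_⟩⟩
  · exact S.nsmul_mem (hS (Q (n + k))) (z.appr (n + k))
  · show p • (z.appr (n + 1 + k) • (a σ (Q (n + 1 + k)) - Q (n + 1 + k))) =
      z.appr (n + k) • (a σ (Q (n + k)) - Q (n + k))
    rw [smul_comm, add_right_comm, d_step hQ]
    exact appr_le (d_tor hQ σ _) (Nat.le_succ _) _
  · show (p ^ (n + k) : ℕ) • (z.appr (n + k) • (a σ (Q (n + k)) - Q (n + k))) = 0
    rw [smul_comm, d_tor hQ, smul_zero]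

/-- `H¹_f` -/
abbrev Hf (a : G → A →+ A) (p : ℕ) (S : AddSubgroup (G → A)) : Type :=
  SelC p S ⧸ (CobC a p).addSubgroupOf (SelC p S)

omit [Mul G] hp in
lemma mk_eq_of {S : AddSubgroup (G → A)} {c d : SelC p S} (h : c.1 - d.1 ∈ CobC a p) :
    (QuotientAddGroup.mk c : Hf a p S) = QuotientAddGroup.mk d := by
  rw [← sub_eq_zero, ← QuotientAddGroup.mk_sub, QuotientAddGroup.eq_zero_iff]
  exact h

end abs

end Pool.Agent.J6H22.BK
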