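import Pool.Agent.J6H22.BK.Abs

/-!
# The Kummer map is an isomorphism: abstract version, second part
-/

set_option autoImplicit false

namespace Pool.Agent.J6H22.BK

open TensorProduct

section abs

variable {A G : Type} [AddCommGroup A] {a : G → A →+ A} {p : ℕ} [hp : Fact p.Prime]

omit hp in
lemma exists_seq (hdiv : ∀ P : A, ∃ Q, p • Q = P) (P : A) :
    ∃ Q : ℕ → A, Q 0 = P ∧ ∀ n, p • Q (n + 1) = Q n := by
  choose f hf using hdiv
  exact ⟨fun n => Nat.rec P (fun _ R => f R) n, rfl, fun n => hf _⟩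

/-- a choice of a divisible sequence -/
noncomputable def sq (hdiv : ∀ P : A, ∃ Q, p • Q = P) (P : A) : ℕ → A :=
  Classical.choose (exists_seq hdiv P)

omit hp in
lemma sq_zero (hdiv : ∀ P : A, ∃ Q, p • Q = P) (P : A) : sq hdiv P 0 = P :=
  (Classical.choose_spec (exists_seq hdiv P)).1

omit hp in
lemma sq_isD (hdiv : ∀ P : A, ∃ Q, p • Q = P) (P : Fx a) : IsD a p (sq hdiv P.1) :=
  ⟨fun σ => by rw [sq_zero]; exact P.2 σ, (Classical.choose_spec (exists_seq hdiv P.1)).2⟩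

section

variable {S : AddSubgroup (G → A)} (hS : ∀ P : A, (fun σ => a σ P - P) ∈ S)

/-- the class of `q` times the Kummer cocycle of `Q` -/
noncomputable def kc (Q : ℕ → A) (hQ : IsD a p Q) (q : ℚ_[p]) : Hf a p S :=
  QuotientAddGroup.mk ⟨kq a Q q, kz_mem hS hQ _ _⟩

lemma kc_add (Q : ℕ → A) (hQ : IsD a p Q) (q r : ℚ_[p]) :
    kc hS Q hQ (q + r) = kc hS Q hQ q + kc hS Q hQ r := by
  rw [kc, kc, kc, ← QuotientAddGroup.mk_add]
  congr 1
  exact Subtype.ext (kq_add hQ q r)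

/-- independence of the sequence -/
lemma kc_indep {Q R : ℕ → A} (hQ : IsD a p Q) (hR : IsD a p R) (h : Q 0 = R 0) (q : ℚ_[p]) :
    kc hS Q hQ q = kc hS R hR q := by
  apply mk_eq_of
  show kq a Q q - kq a R q ∈ CobC a p
  rw [← kq_Q_sub]
  apply kq_tors (isD_sub hQ hR)
  show Q 0 - R 0 = 0
  rw [h, sub_self]

lemma kc_Q_add {Q R T : ℕ → A} (hQ : IsD a p Q) (hR : IsD a p R) (hT : IsD a p T)
    (h : T 0 = Q 0 + R 0) (q : ℚ_[p]) :
    kc hS T hT q = kc hS Q hQ q + kc hS R hR q := by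
  rw [kc_indep hS hT (isD_add hQ hR) h, kc, kc, kc, ← QuotientAddGroup.mk_add]
  congr 1
  exact Subtype.ext (kq_Q_add q)

variable (hdiv : ∀ P : A, ∃ Q, p • Q = P)

/-- the bilinear map -/
noncomputable def f2 : Fx a →+ ℚ_[p] →+ Hf a p S :=
  AddMonoidHom.mk' (fun P => AddMonoidHom.mk' (fun q => kc hS _ (sq_isD hdiv P) q)
    (fun q r => kc_add hS _ _ q r)) (fun P P' => by
    apply AddMonoidHom.ext
    intro q
    exact kc_Q_add hS (sq_isD hdiv P) (sq_isD hdiv P') (sq_isD hdiv (P + P'))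
      (by rw [sq_zero, sq_zero, sq_zero]; rfl) q)

/-- the Kummer map tensored with `ℚ_p` -/
noncomputable def phi : Fx a ⊗[ℤ] ℚ_[p] →+ Hf a p S :=
  TensorProduct.liftAddHom (f2 hS hdiv) (fun r m n => by
    rw [map_zsmul, map_zsmul]
    rfl)

lemma phi_tmul (P : Fx a) (q : ℚ_[p]) {Q : ℕ → A} (hQ : IsD a p Q) (h : Q 0 = P) :
    phi hS hdiv (P ⊗ₜ q) = kc hS Q hQ q := by
  rw [phi, TensorProduct.liftAddHom_tmul]
  exact kc_indep hS (sq_isD hdiv P) hQ (by rw [sq_zero, h]) q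

omit hp in
/-- **Lifting lemma** (inverse limits of finite nonempty sets). -/
lemma lift' (hfin : {P : A | (∀ σ, a σ P = P) ∧ ∃ m : ℕ, (p ^ m : ℕ) • P = 0}.Finite)
    (c : G → ℕ → A) (hc : ∀ σ n, p • c σ (n + 1) = c σ n)
    (hne : ∀ n, ∃ P, (∃ m : ℕ, (p ^ m : ℕ) • P = 0) ∧ ∀ σ, c σ n = a σ P - P) :
    c ∈ CobC a p := by
  have hpow : ∀ (σ : G) (n k : ℕ), (p ^ k : ℕ) • c σ (n + k) = c σ n := by
    intro σ n k
    induction k with
    | zero => simp
    | succ k ih =>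
      rw [pow_succ, mul_smul, ← add_assoc, hc, ih]
  let T : ℕ → Type := fun n => {P : A // (∃ m : ℕ, (p ^ m : ℕ) • P = 0) ∧ ∀ σ, c σ n = a σ P - P}
  have hfin : ∀ n, Finite (T n) := by
    intro n
    obtain ⟨P0, ⟨m0, hm0⟩, hP1⟩ := hne n
    have := hfin.to_subtype
    refine Finite.of_injective
      (β := {P : A | (∀ σ, a σ P = P) ∧ ∃ m : ℕ, (p ^ m : ℕ) • P = 0})
      (fun P => ⟨P.1 - P0, fun σ => ?_, ?_⟩) (fun P Q h => ?_)
    · have h1 := P.2.2 σ
      rw [hP1 σ] at h1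
      rw [map_sub]
      have h2 : a σ P.1 = a σ P0 - P0 + P.1 := by
        rw [h1]
        abel
      rw [h2]
      abel
    · obtain ⟨m, hm⟩ := P.2.1
      refine ⟨m + m0, ?_⟩
      rw [nsmul_sub, pow_add, mul_comm, mul_smul, hm, smul_zero, mul_comm, mul_smul, hm0, smul_zero,
        sub_zero]
    · have h1 : P.1 - P0 = Q.1 - P0 := congrArg Subtype.val h
      exact Subtype.ext (sub_left_injective h1)
  have hnon : ∀ n, Nonempty (T n) := by
    intro n
    obtain ⟨P0, hP0⟩ := hne n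
    exact ⟨⟨P0, hP0⟩⟩
  obtain ⟨f, hf⟩ := exists_seq_forall_proj_of_forall_finite (α := T)
    (fun {i j} hij P => ⟨(p ^ (j - i) : ℕ) • P.1, by
      obtain ⟨⟨m, hm⟩, h2⟩ := P.2
      refine ⟨⟨m, by rw [smul_comm, hm, smul_zero]⟩, fun σ => ?_⟩
      rw [map_nsmul, ← nsmul_sub, ← h2 σ]
      have := hpow σ i (j - i)
      rw [Nat.add_sub_cancel' hij] at this
      exact this.symm⟩)
    (fun i P => by
      apply Subtype.ext
      simp)
    (fun i j k hij hjk P => by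
      apply Subtype.ext
      show (p ^ (j - i) : ℕ) • ((p ^ (k - j) : ℕ) • P.1) = (p ^ (k - i) : ℕ) • P.1
      rw [smul_smul, ← pow_add]
      congr 2
      omega)
    (fun i P => Set.toFinite _)
  refine ⟨fun n => (f n).1, fun n => ⟨?_, (f n).2.1⟩, fun σ n => (f n).2.2 σ⟩
  have h1 := congrArg Subtype.val (hf (Nat.le_add_right n 1))
  have h2 : (p ^ (n + 1 - n) : ℕ) • (f (n + 1)).1 = (f n).1 := h1
  rw [Nat.add_sub_cancel_left, pow_one] at h2
  exact h2

/-- limits of integers -/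
lemma exists_lim (K : ℕ) (u : ℕ → ℤ) (h : ∀ n, (p : ℤ) ^ (n + K) ∣ u (n + 1) - u n) :
    ∃ z : ℤ_[p], ∀ n, (p : ℤ_[p]) ^ (n + K) ∣ z - u n := by
  have hmn : ∀ n j, (p : ℤ) ^ (n + K) ∣ u (n + j) - u n := by
    intro n j
    induction j with
    | zero => simp
    | succ j ih =>
      have h1 : u (n + (j + 1)) - u n = (u (n + j + 1) - u (n + j)) + (u (n + j) - u n) := by
        rw [← add_assoc]
        ring
      rw [h1]
      exact dvd_add ((pow_dvd_pow _ (by omega)).trans (h (n + j))) ih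
  obtain ⟨z, hz⟩ := IsPrecomplete.prec' (I := IsLocalRing.maximalIdeal ℤ_[p]) (M := ℤ_[p])
    (fun n => ((u n : ℤ) : ℤ_[p])) (fun {m n} hm => by
      rw [SModEq.sub_mem, smul_eq_mul, Ideal.mul_top, PadicInt.maximalIdeal_eq_span_p,
        Ideal.span_singleton_pow, Ideal.mem_span_singleton]
      obtain ⟨j, rfl⟩ := Nat.exists_eq_add_of_le hm
      have h1 := (pow_dvd_pow (p : ℤ) (show m ≤ m + K by omega)).trans (hmn m j)
      have h2 := map_dvd (Int.castRingHom ℤ_[p]) h1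
      rw [← dvd_neg]
      simpa using h2)
  refine ⟨z, fun n => ?_⟩
  have h1 := hz (n + K)
  rw [SModEq.sub_mem, smul_eq_mul, Ideal.mul_top, PadicInt.maximalIdeal_eq_span_p,
    Ideal.span_singleton_pow, Ideal.mem_span_singleton] at h1
  have h2 := map_dvd (Int.castRingHom ℤ_[p]) (hmn n K)
  have h3 : (p : ℤ_[p]) ^ (n + K) ∣ ((u (n + K) : ℤ) : ℤ_[p]) - ((u n : ℤ) : ℤ_[p]) := by
    simpa using h2
  have h4 : z - (u n : ℤ_[p]) = (((u (n + K) : ℤ) : ℤ_[p]) - ((u n : ℤ) : ℤ_[p])) -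
      (((u (n + K) : ℤ) : ℤ_[p]) - z) := by ring
  rw [h4]
  exact dvd_sub h3 h1

/-- **Surjectivity** -/
theorem surj [Module.Finite ℤ (Fx a)] (hrange : ∀ f ∈ S, (Set.range f).Finite)
    (hsha : ∀ f ∈ S, ∀ m : ℕ, (∀ σ, (p ^ m : ℕ) • f σ = 0) → ∃ P, ∀ σ, f σ = a σ P - P) :
    Function.Surjective (phi hS hdiv) := by
  intro x
  obtain ⟨c, rfl⟩ := QuotientAddGroup.mk_surjective x
  obtain ⟨c1, c2⟩ := c.2
  -- bounded coordinates
  have hK : ∀ n, ∃ K : ℕ, ∀ σ, (p ^ K : ℕ) • c.1 σ n = 0 := by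
    intro n
    choose m hm using fun σ => (c2 σ n).2
    have hex : ∀ y ∈ Set.range (fun σ => c.1 σ n), ∃ k : ℕ, (p ^ k : ℕ) • y = 0 := by
      rintro y ⟨σ, rfl⟩
      exact ⟨m σ, hm σ⟩
    choose! k hk using hex
    obtain ⟨K, hK⟩ := ((hrange _ (c1 n)).image k).bddAbove
    refine ⟨K, fun σ => ?_⟩
    have h1 := hk _ (Set.mem_range_self σ)
    have h2 : k (c.1 σ n) ≤ K := hK ⟨_, Set.mem_range_self σ, rfl⟩
    rw [← Nat.sub_add_cancel h2, pow_add, mul_smul, h1, smul_zero]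
  have hR : ∀ n, ∃ R, ∀ σ, c.1 σ n = a σ R - R := by
    intro n
    obtain ⟨K, hK⟩ := hK n
    exact hsha _ (c1 n) K hK
  choose R hR using hR
  obtain ⟨K, hK0⟩ := hK 0
  have hb : ∀ n, p • R (n + 1) - R n ∈ Fx a := by
    intro n σ
    have h1 : p • c.1 σ (n + 1) = c.1 σ n := (c2 σ n).1
    rw [hR, hR, nsmul_sub, ← map_nsmul] at h1
    rw [map_sub]
    have h2 : a σ (p • R (n + 1)) = a σ (R n) - R n + p • R (n + 1) := by
      rw [← h1]
      abel
    rw [h2]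
    abel
  have hP0 : (p ^ K : ℕ) • R 0 ∈ Fx a := by
    intro σ
    rw [map_nsmul, ← sub_eq_zero, ← nsmul_sub, ← hR, hK0]
  obtain ⟨r, g, hg⟩ := Module.Finite.exists_fin (R := ℤ) (M := Fx a)
  have hg' : ∀ y : Fx a, ∃ v : Fin r → ℤ, ∑ i, v i • g i = y := by
    intro y
    have : y ∈ Submodule.span ℤ (Set.range g) := by
      rw [hg]
      trivial
    exact (Submodule.mem_span_range_iff_exists_fun ℤ).1 this
  obtain ⟨α, hα⟩ := hg' ⟨_, hP0⟩
  choose β hβ using fun n => hg' ⟨_, hb n⟩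
  have hα' : ∑ i, α i • (g i : A) = (p ^ K : ℕ) • R 0 := by
    have h1 : ((∑ i, α i • g i : Fx a) : A) = (p ^ K : ℕ) • R 0 := congrArg Subtype.val hα
    rw [← h1]
    simp
  have hβ' : ∀ n, ∑ i, β n i • (g i : A) = p • R (n + 1) - R n := by
    intro n
    have h1 : ((∑ i, β n i • g i : Fx a) : A) = p • R (n + 1) - R n :=
      congrArg Subtype.val (hβ n)
    rw [← h1]
    simp
  obtain ⟨u, hu⟩ : ∃ u : Fin r → ℕ → ℤ, u = fun i n =>
    α i + ∑ m ∈ Finset.range n, (p : ℤ) ^ (m + K) * β m i := ⟨_, rfl⟩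
  have hu0 : ∀ i, u i 0 = α i := fun i => by rw [hu]; simp
  have hus : ∀ i n, u i (n + 1) = u i n + (p : ℤ) ^ (n + K) * β n i := by
    intro i n
    rw [hu]
    simp only [Finset.sum_range_succ]
    ring
  have hsum : ∀ n, (p ^ (n + K) : ℕ) • R n = ∑ i, u i n • (g i : A) := by
    intro n
    induction n with
    | zero =>
      simp only [hu0, hα', zero_add]
    | succ n ih =>
      have h1 : ∑ i, u i (n + 1) • (g i : A) =
          ∑ i, u i n • (g i : A) + ((p : ℤ) ^ (n + K)) • ∑ i, β n i • (g i : A) := by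
        rw [Finset.smul_sum, ← Finset.sum_add_distrib]
        refine Finset.sum_congr rfl fun i _ => ?_
        rw [hus, add_smul, mul_smul]
      rw [h1, ← ih, hβ']
      have h2 : ((p : ℤ) ^ (n + K)) • (p • R (n + 1) - R n) =
          (p ^ (n + K) : ℕ) • (p • R (n + 1) - R n) := by
        rw [← natCast_zsmul (p • R (n + 1) - R n), Nat.cast_pow]
      rw [h2, nsmul_sub, smul_smul, ← pow_succ]
      have h3 : n + 1 + K = n + K + 1 := by omega
      rw [h3]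
      abel
  have hz : ∀ i, ∃ z : ℤ_[p], ∀ n, (p : ℤ_[p]) ^ (n + K) ∣ z - u i n := by
    intro i
    apply exists_lim
    intro n
    rw [hus]
    exact ⟨β n i, by ring⟩
  choose z hz using hz
  refine ⟨∑ i, g i ⊗ₜ ((z i : ℚ_[p]) / (p : ℚ_[p]) ^ K), ?_⟩
  rw [map_sum]
  have hp0 : (p : ℚ_[p]) ≠ 0 := by
    exact_mod_cast hp.1.ne_zero
  have hkc : ∀ i, phi (S := S) hS hdiv (g i ⊗ₜ ((z i : ℚ_[p]) / (p : ℚ_[p]) ^ K)) =
      QuotientAddGroup.mk ⟨kz a (sq hdiv (g i).1) (z i) K, kz_mem hS (sq_isD hdiv (g i)) _ _⟩ := by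
    intro i
    rw [phi_tmul hS hdiv (g i) _ (sq_isD hdiv (g i)) (sq_zero _ _), kc]
    congr 1
    apply Subtype.ext
    apply kq_eq (sq_isD hdiv (g i))
    field_simp
  simp only [hkc]
  rw [← QuotientAddGroup.mk_sum]
  symm
  apply mk_eq_of
  -- the finiteness of the torsion
  have hfin : {P : A | (∀ σ, a σ P = P) ∧ ∃ m : ℕ, (p ^ m : ℕ) • P = 0}.Finite := by
    have h1 : Finite (Submodule.torsion ℤ (Fx a)) := by
      have := Module.finite_of_fg_torsion (Submodule.torsion ℤ (Fx a)) Submodule.torsion_isTorsion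
      exact this
    refine Set.Finite.subset (Set.toFinite (Set.range
      fun x : Submodule.torsion ℤ (Fx a) => (x.1.1 : A))) ?_
    rintro P ⟨h2, m, hm⟩
    refine ⟨⟨⟨P, h2⟩, ?_⟩, rfl⟩
    rw [Submodule.mem_torsion_iff]
    refine ⟨⟨(p : ℤ) ^ m, ?_⟩, ?_⟩
    · exact mem_nonZeroDivisors_of_ne_zero (pow_ne_zero _ (by exact_mod_cast hp.1.ne_zero))
    · apply Subtype.ext
      show (p : ℤ) ^ m • P = 0
      rw [← hm, ← natCast_zsmul P, Nat.cast_pow]
  apply lift' hfin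
  · intro σ n
    have hmem : c.1 - (∑ i, (⟨kz a (sq hdiv (g i).1) (z i) K,
      kz_mem hS (sq_isD hdiv (g i)) _ _⟩ : SelC p S) : SelC p S).1 ∈ SelC p S :=
      (SelC p S).sub_mem c.2 (Subtype.mem _)
    exact (hmem.2 σ n).1
  · intro n
    refine ⟨R n - ∑ i, u i n • sq hdiv (g i).1 (n + K), ⟨n + K, ?_⟩, fun σ => ?_⟩
    · rw [nsmul_sub, hsum, Finset.smul_sum, sub_eq_zero]
      refine Finset.sum_congr rfl fun i _ => ?_
      rw [smul_comm, d_zero (sq_isD hdiv (g i)).2, sq_zero]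
    · show (c.1 - (∑ i, (⟨kz a (sq hdiv (g i).1) (z i) K,
        kz_mem hS (sq_isD hdiv (g i)) _ _⟩ : SelC p S) : SelC p S).1) σ n = _
      rw [AddSubgroup.val_finsetSum]
      show c.1 σ n - (∑ i, kz a (sq hdiv (g i).1) (z i) K) σ n = _
      rw [Finset.sum_apply, Finset.sum_apply, hR, map_sub, map_sum]
      have h1 : ∀ i, kz a (sq hdiv (g i).1) (z i) K σ n =
          a σ (u i n • sq hdiv (g i).1 (n + K)) - u i n • sq hdiv (g i).1 (n + K) := by
        intro i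
        show (z i).appr (n + K) • (a σ (sq hdiv (g i).1 (n + K)) - sq hdiv (g i).1 (n + K)) = _
        rw [map_zsmul, ← zsmul_sub, ← natCast_zsmul]
        apply eq_smul (d_tor (sq_isD hdiv (g i)) σ (n + K))
        have h2 := hz i n
        have h3 := appr_dvd (z i) (n + K)
        have h4 : (((z i).appr (n + K) : ℤ) : ℤ_[p]) - (u i n : ℤ_[p]) =
            (z i - (u i n : ℤ_[p])) - (z i - ((z i).appr (n + K) : ℤ_[p])) := by
          push_cast
          ring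
        rw [h4]
        exact dvd_sub h2 h3
      simp only [h1]
      rw [Finset.sum_sub_distrib]
      abel

end

/-- representation of the elements of `B ⊗ ℚ_p` -/
lemma tens_rep (B : Type) [AddCommGroup B] [Module.Finite ℤ B] :
    ∃ (g : Fin (Module.finrank ℤ B) → B) (ε : Fin (Module.finrank ℤ B) → B →+ ℤ),
      (∀ i j, ε i (g j) = if i = j then 1 else 0) ∧
      ∀ x : B ⊗[ℤ] ℚ_[p], ∃ q : Fin (Module.finrank ℤ B) → ℚ_[p], x = ∑ i, g i ⊗ₜ q i := by
  have hfr : Module.finrank ℤ (B ⧸ Submodule.torsion ℤ B) = Module.finrank ℤ B :=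
    finrank_quotient_eq_of_le_torsion le_rfl
  have hfree : Module.Free ℤ (B ⧸ Submodule.torsion ℤ B) := inferInstance
  let b := (Module.finBasisOfFinrankEq ℤ (B ⧸ Submodule.torsion ℤ B) hfr)
  choose g hg using fun i => Submodule.mkQ_surjective (Submodule.torsion ℤ B) (b i)
  let ε : Fin (Module.finrank ℤ B) → B →ₗ[ℤ] ℤ := fun i => (b.coord i) ∘ₗ (Submodule.torsion ℤ B).mkQ
  have hε : ∀ i j, ε i (g j) = if i = j then 1 else 0 := by
    intro i j
    show b.coord i ((Submodule.torsion ℤ B).mkQ (g j)) = _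
    rw [hg, b.coord_apply, b.repr_self, Finsupp.single_apply]
    simp only [eq_comm]
  refine ⟨g, fun i => (ε i).toAddMonoidHom, hε, fun x => ?_⟩
  induction x using TensorProduct.induction_on with
  | zero => exact ⟨0, by simp⟩
  | tmul y q =>
    refine ⟨fun i => (ε i y : ℚ_[p]) * q, ?_⟩
    have h1 : y - ∑ i, ε i y • g i ∈ Submodule.torsion ℤ B := by
      rw [← Submodule.ker_mkQ (Submodule.torsion ℤ B), LinearMap.mem_ker, map_sub, map_sum, sub_eq_zero]
      conv_lhs => rw [← b.sum_repr ((Submodule.torsion ℤ B).mkQ y)]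
      refine Finset.sum_congr rfl fun i _ => ?_
      rw [map_zsmul, hg]
      rfl
    obtain ⟨n, hn⟩ := (Submodule.mem_torsion_iff _).1 h1
    have h2 : (y - ∑ i, ε i y • g i) ⊗ₜ[ℤ] q = 0 := by
      have hn0 : ((n : ℤ) : ℚ_[p]) ≠ 0 := by
        exact_mod_cast nonZeroDivisors.ne_zero n.2
      have h3 : q = (n : ℤ) • (q / ((n : ℤ) : ℚ_[p])) := by
        rw [zsmul_eq_mul]
        field_simp
      rw [h3, TensorProduct.tmul_smul, TensorProduct.smul_tmul']
      have h4 : (n : ℤ) • (y - ∑ i, ε i y • g i) = 0 := hn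
      rw [h4, TensorProduct.zero_tmul]
    rw [TensorProduct.sub_tmul, sub_eq_zero, TensorProduct.sum_tmul] at h2
    rw [h2]
    refine Finset.sum_congr rfl fun i _ => ?_
    rw [TensorProduct.smul_tmul, zsmul_eq_mul]
  | add x y hx hy =>
    obtain ⟨q, hq⟩ := hx
    obtain ⟨r, hr⟩ := hy
    refine ⟨q + r, ?_⟩
    rw [hq, hr, ← Finset.sum_add_distrib]
    refine Finset.sum_congr rfl fun i _ => ?_
    rw [Pi.add_apply, TensorProduct.tmul_add]

/-- common denominators -/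
lemma common {r : ℕ} (q : Fin r → ℚ_[p]) : ∃ (k : ℕ) (z : Fin r → ℤ_[p]),
    ∀ i, (z i : ℚ_[p]) = q i * (p : ℚ_[p]) ^ k := by
  refine ⟨∑ i, kk (q i), fun i => (p : ℤ_[p]) ^ (∑ j ∈ Finset.univ.erase i, kk (q j)) * zz (q i),
    fun i => ?_⟩
  rw [← Finset.add_sum_erase _ _ (Finset.mem_univ i)]
  push_cast
  rw [zz_coe]
  ring

section

variable {S : AddSubgroup (G → A)} (hS : ∀ P : A, (fun σ => a σ P - P) ∈ S)
  (hdiv : ∀ P : A, ∃ Q, p • Q = P)

/-- **Injectivity** -/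
theorem inj [Module.Finite ℤ (Fx a)] : Function.Injective (phi (S := S) hS hdiv) := by
  rw [injective_iff_map_eq_zero]
  intro x hx
  obtain ⟨g, ε, hε, hrep⟩ := tens_rep (p := p) (Fx a)
  obtain ⟨q, rfl⟩ := hrep x
  obtain ⟨k, z, hz⟩ := common q
  have hp0 : (p : ℚ_[p]) ≠ 0 := by
    exact_mod_cast hp.1.ne_zero
  have hkc : ∀ i, phi (S := S) hS hdiv (g i ⊗ₜ q i) =
      QuotientAddGroup.mk ⟨kz a (sq hdiv (g i).1) (z i) k, kz_mem hS (sq_isD hdiv (g i)) _ _⟩ := by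
    intro i
    rw [phi_tmul hS hdiv (g i) _ (sq_isD hdiv (g i)) (sq_zero _ _), kc]
    congr 1
    apply Subtype.ext
    exact kq_eq (sq_isD hdiv (g i)) (hz i)
  rw [map_sum] at hx
  simp only [hkc] at hx
  rw [← QuotientAddGroup.mk_sum, QuotientAddGroup.eq_zero_iff, AddSubgroup.mem_addSubgroupOf] at hx
  obtain ⟨X, hX, hX2⟩ := hx
  have hX3 : ∀ σ n, ∑ i, (z i).appr (n + k) • (a σ (sq hdiv (g i).1 (n + k)) -
      sq hdiv (g i).1 (n + k)) = a σ (X n) - X n := by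
    intro σ n
    rw [← hX2 σ n, AddSubgroup.val_finsetSum]
    show _ = (∑ i, kz a (sq hdiv (g i).1) (z i) k) σ n
    rw [Finset.sum_apply, Finset.sum_apply]
    rfl
  obtain ⟨M, hM⟩ := (hX 0).2
  have hXM : ∀ n, (p ^ (n + M) : ℕ) • X n = 0 := by
    intro n
    rw [add_comm, pow_add, mul_smul, d_zero (fun n => (hX n).1), hM]
  have hy : ∀ n, ∑ i, (z i).appr (n + k) • sq hdiv (g i).1 (n + k) - X n ∈ Fx a := by
    intro n σ
    rw [map_sub, map_sum]
    have h1 := hX3 σ n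
    simp only [nsmul_sub, ← map_nsmul] at h1
    rw [Finset.sum_sub_distrib] at h1
    have h2 : ∑ i, a σ ((z i).appr (n + k) • sq hdiv (g i).1 (n + k)) =
        a σ (X n) - X n + ∑ i, (z i).appr (n + k) • sq hdiv (g i).1 (n + k) := by
      rw [← h1]
      abel
    rw [h2]
    abel
  have hz0 : ∀ i, z i = 0 := by
    intro j
    have hdv : ∀ n, (p : ℤ_[p]) ^ (n + k) ∣ z j := by
      intro n
      have h1 : (p ^ (n + k + M) : ℕ) • (⟨_, hy n⟩ : Fx a) =
          ∑ i, (p ^ M * (z i).appr (n + k)) • g i := by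
        apply Subtype.ext
        rw [AddSubgroup.val_finsetSum]
        show (p ^ (n + k + M) : ℕ) • (∑ i, (z i).appr (n + k) • sq hdiv (g i).1 (n + k) - X n) =
          ∑ i, (p ^ M * (z i).appr (n + k)) • ((g i : Fx a) : A)
        have h2 : (p ^ (n + k + M) : ℕ) • X n = 0 := by
          have h3 : n + k + M = k + (n + M) := by omega
          rw [h3, pow_add, mul_smul, hXM, smul_zero]
        rw [nsmul_sub, h2, sub_zero, Finset.smul_sum]
        refine Finset.sum_congr rfl fun i _ => ?_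
        rw [pow_add, mul_comm, mul_smul, mul_smul]
        congr 1
        rw [smul_comm, d_zero (sq_isD hdiv (g i)).2, sq_zero]
      have h2 := congrArg (ε j) h1
      rw [map_nsmul, map_sum] at h2
      simp only [map_nsmul, hε, smul_ite, smul_zero, Finset.sum_ite_eq, Finset.mem_univ, if_true] at h2
      rw [nsmul_eq_mul, nsmul_eq_mul, mul_one, pow_add, mul_comm (p ^ (n + k)) (p ^ M)] at h2
      push_cast at h2
      rw [mul_assoc] at h2
      have h3 := mul_left_cancel₀ (pow_ne_zero M (show (p : ℤ) ≠ 0 by exact_mod_cast hp.1.ne_zero)) h2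
      have h4 : (((z j).appr (n + k) : ℕ) : ℤ_[p]) = (p : ℤ_[p]) ^ (n + k) *
          ((ε j ⟨_, hy n⟩ : ℤ) : ℤ_[p]) := by
        have h5 := congrArg (fun t : ℤ => (t : ℤ_[p])) h3
        push_cast at h5
        exact h5.symm
      have h6 := appr_dvd (z j) (n + k)
      rw [h4] at h6
      exact (dvd_sub_left (Dvd.intro _ rfl)).1 h6
    by_contra hne
    have h7 : ∀ n : ℕ, ‖z j‖ ≤ (p : ℝ) ^ (-(n : ℤ)) := by
      intro n
      rw [PadicInt.norm_le_pow_iff_mem_span_pow, Ideal.mem_span_singleton]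
      exact (pow_dvd_pow _ (Nat.le_add_right n k)).trans (hdv n)
    have h8 : (0 : ℝ) < ‖z j‖ := norm_pos_iff.2 hne
    have h9 : (p : ℝ)⁻¹ < 1 := inv_lt_one_of_one_lt₀ (by exact_mod_cast hp.1.one_lt)
    obtain ⟨n, hn⟩ := exists_pow_lt_of_lt_one h8 h9
    have h10 := h7 n
    rw [zpow_neg, zpow_natCast, ← inv_pow] at h10
    exact absurd h10 (not_le.2 hn)
  have hq0 : ∀ i, q i = 0 := by
    intro i
    have h1 := hz i
    rw [hz0 i, PadicInt.coe_zero] at h1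
    exact (mul_eq_zero.1 h1.symm).resolve_right (pow_ne_zero _ hp0)
  simp [hq0]

/-- **The Kummer map is an isomorphism** if the `p`-primary part of `Ш` is zero. -/
theorem main (hS : ∀ P : A, (fun σ => a σ P - P) ∈ S) (hdiv : ∀ P : A, ∃ Q, p • Q = P)
    [Module.Finite ℤ (Fx a)] (hrange : ∀ f ∈ S, (Set.range f).Finite)
    (hsha : ∀ f ∈ S, ∀ m : ℕ, (∀ σ, (p ^ m : ℕ) • f σ = 0) → ∃ P, ∀ σ, f σ = a σ P - P) :
    ∃ φ : Fx a ⊗[ℤ] ℚ_[p] →+ Hf a p S, Function.Bijective φ ∧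
      ∀ (P : Fx a) (z : ℤ_[p]) (k : ℕ) (Q : ℕ → A), Q 0 = P → (∀ n, p • Q (n + 1) = Q n) →
        ∃ c : SelC p S, (∀ σ n, c.1 σ n = z.appr (n + k) • (a σ (Q (n + k)) - Q (n + k))) ∧
          φ (P ⊗ₜ ((z : ℚ_[p]) / (p : ℚ_[p]) ^ k)) = QuotientAddGroup.mk c := by
  refine ⟨phi hS hdiv, ⟨inj hS hdiv, surj hS hdiv hrange hsha⟩, fun P z k Q h0 hQ => ?_⟩
  have hD : IsD a p Q := ⟨fun σ => by rw [h0]; exact P.2 σ, hQ⟩
  refine ⟨⟨kz a Q z k, kz_mem hS hD _ _⟩, fun σ n => rfl, ?_⟩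
  rw [phi_tmul hS hdiv P _ hD h0, kc]
  congr 1
  apply Subtype.ext
  apply kq_eq hD
  have hp0 : (p : ℚ_[p]) ≠ 0 := by
    exact_mod_cast hp.1.ne_zero
  field_simp

end

end abs

end Pool.Agent.J6H22.BK
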