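import Pool.Agent.J6H22.BK.Abs2
import Pool.Agent.Y667.BKP.Main

/-!
# The Kummer map of an elliptic curve over a number field whose `Ш` has trivial `p`-primary part
-/

set_option autoImplicit false

namespace Pool.Agent.J6H22.BK

open WeierstrassCurve TensorProduct
open Pool.Agent.TH841.SH.D (Pt act Gal Coch IsCoc IsCob LocTriv cob)
open Pool.Agent.TH841.NF.D (IsShaCoc shaCoc Sha)

variable {F : Type} [Field F] [NumberField F]

/-- the Galois group acts on the points over the algebraic closure -/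
noncomputable def ga (W : WeierstrassCurve F) :
    Gal F → Pt W (AlgebraicClosure F) →+ Pt W (AlgebraicClosure F) := fun σ => act W σ.toAlgHom

/-- `Sel W`: the cocycles of `Ш`, as a group of functions -/
def shS (W : WeierstrassCurve F) : AddSubgroup (Gal F → Pt W (AlgebraicClosure F)) := shaCoc W

/-- **The Bloch–Kato Selmer group** -/
def H1f (p : ℕ) (W : WeierstrassCurve F) : Type :=
  SelC p (shS W) ⧸ (CobC (ga W) p).addSubgroupOf (SelC p (shS W))

noncomputable instance H1f.group (p : ℕ) (W : WeierstrassCurve F) : AddCommGroup (H1f p W) :=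
  QuotientAddGroup.Quotient.addCommGroup _

open scoped Classical in
omit [NumberField F] in
/-- the inclusion of the rational points -/
lemma exists_incl (W : WeierstrassCurve F) :
    ∃ j : W.toAffine.Point →+ Pt W (AlgebraicClosure F), Function.Injective j ∧
    (∀ (x y : F) (h : W.toAffine.Nonsingular x y), ∃ h', j (.some x y h) =
      (Affine.Point.some (algebraMap F (AlgebraicClosure F) x) (algebraMap F (AlgebraicClosure F) y)
        h' : Pt W (AlgebraicClosure F))) ∧
    (∀ (σ : Gal F) (P : W.toAffine.Point), act W σ.toAlgHom (j P) = j P) := by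
  suffices H : ∀ W' : WeierstrassCurve F, W' = W.baseChange F →
      ∃ j : W'.toAffine.Point →+ Pt W (AlgebraicClosure F), Function.Injective j ∧
      (∀ (x y : F) (h : W'.toAffine.Nonsingular x y), ∃ h', j (.some x y h) =
        (Affine.Point.some (algebraMap F (AlgebraicClosure F) x)
          (algebraMap F (AlgebraicClosure F) y) h' : Pt W (AlgebraicClosure F))) ∧
      (∀ (σ : Gal F) (P : W'.toAffine.Point), act W σ.toAlgHom (j P) = j P) by
    apply H W
    apply WeierstrassCurve.ext <;> simp [WeierstrassCurve.baseChange]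
  rintro W' rfl
  refine ⟨Affine.Point.map (Algebra.ofId F (AlgebraicClosure F)), Affine.Point.map_injective _,
    fun x y h => ⟨_, rfl⟩, ?_⟩
  intro σ P
  rcases P with _ | ⟨x, y, h⟩
  · rfl
  · exact (Affine.Point.some.injEq _ _ _ _ _ _).mpr ⟨σ.commutes x, σ.commutes y⟩

open scoped Classical in
/-- **The Kummer map is an isomorphism.** -/
theorem ell (p : ℕ) [Fact p.Prime] (W : WeierstrassCurve F)
    (hcb : ∀ P : Pt W (AlgebraicClosure F), (fun σ : Gal F => act W σ.toAlgHom P - P : Coch W) ∈ shaCoc W)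
    (hdiv : ∀ P : Pt W (AlgebraicClosure F), ∃ Q, p • Q = P)
    (hfg : Module.Finite ℤ W.toAffine.Point)
    (hsha : ∀ (n : ℕ) (x : Sha W), p ^ n • x = 0 → x = 0) :
    ∃ j : W.toAffine.Point →+ Pt W (AlgebraicClosure F),
      (∀ (x y : F) (h : W.toAffine.Nonsingular x y), ∃ h', j (.some x y h) =
        (Affine.Point.some (algebraMap F (AlgebraicClosure F) x)
          (algebraMap F (AlgebraicClosure F) y) h' : Pt W (AlgebraicClosure F))) ∧
      ∃ φ : W.toAffine.Point ⊗[ℤ] ℚ_[p] ≃+ H1f p W,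
        ∀ (P : W.toAffine.Point) (z : ℤ_[p]) (k : ℕ) (Q : ℕ → Pt W (AlgebraicClosure F)),
          Q 0 = j P → (∀ n, p • Q (n + 1) = Q n) →
          ∃ c : SelC p (shS W),
            (∀ σ n, c.1 σ n = z.appr (n + k) • (act W σ.toAlgHom (Q (n + k)) - Q (n + k))) ∧
            φ (P ⊗ₜ ((z : ℚ_[p]) / (p : ℚ_[p]) ^ k)) = QuotientAddGroup.mk c := by
  obtain ⟨j, hj1, hj0, hj2⟩ := exists_incl W
  refine ⟨j, hj0, ?_⟩
  have hj3 : ∀ P : Pt W (AlgebraicClosure F), (∀ σ : Gal F, act W σ.toAlgHom P = P) →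
      ∃ q, j q = P := by
    intro P hP
    rcases P with _ | ⟨X, Y, h⟩
    · exact ⟨0, map_zero j⟩
    · have hfix : ∀ σ : Gal F, σ X = X ∧ σ Y = Y := by
        intro σ
        exact (Affine.Point.some.injEq _ _ _ _ _ _).mp (hP σ)
      obtain ⟨x, hx⟩ := Pool.Agent.TH841.SH.fix_mem (K := F) X (fun τ => (hfix τ).1)
      obtain ⟨y, hy⟩ := Pool.Agent.TH841.SH.fix_mem (K := F) Y (fun τ => (hfix τ).2)
      subst hx hy
      have hn : W.toAffine.Nonsingular x y := by
        have e : W.baseChange F = W := by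
          apply WeierstrassCurve.ext <;> simp [WeierstrassCurve.baseChange]
        have h1 : (W.baseChange F).toAffine.Nonsingular x y :=
          (Affine.baseChange_nonsingular W (f := Algebra.ofId F (AlgebraicClosure F))
          (Algebra.ofId F (AlgebraicClosure F)).injective x y).mp h
        rwa [e] at h1
      obtain ⟨h', e'⟩ := hj0 x y hn
      exact ⟨_, e'⟩
  let e : W.toAffine.Point ≃+ Fx (ga W) :=
    AddEquiv.ofBijective (AddMonoidHom.codRestrict j (Fx (ga W)) fun q σ => hj2 σ q)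
      ⟨fun q r h => hj1 (congrArg Subtype.val h), fun P => by
        obtain ⟨q, hq⟩ := hj3 P.1 P.2
        exact ⟨q, Subtype.ext hq⟩⟩
  have he : ∀ q, ((e q : Fx (ga W)) : Pt W (AlgebraicClosure F)) = j q := fun q => rfl
  have hfin : Module.Finite ℤ (Fx (ga W)) :=
    Module.Finite.equiv e.toIntLinearEquiv
  obtain ⟨φ, hφ, hφ2⟩ := main (a := ga W) (p := p) (S := shS W) hcb hdiv
    (fun f hf => by
      have h1 : IsLocallyConstant f := hf.1.1
      exact h1.range_finite)
    (fun f hf m hm => by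
      obtain ⟨g, hg⟩ : ∃ g : shaCoc W, g.1 = f := ⟨⟨f, hf⟩, rfl⟩
      have h0 : (p ^ m : ℕ) • g = 0 := by
        apply Subtype.ext
        rw [AddSubgroup.coe_nsmul, hg]
        funext σ
        exact hm σ
      have h1 : (p ^ m : ℕ) • (QuotientAddGroup.mk g : Sha W) = 0 := by
        rw [← QuotientAddGroup.mk_nsmul, h0]
        rfl
      have h3 := (QuotientAddGroup.eq_zero_iff _).1 (hsha m _ h1)
      rw [AddSubgroup.mem_addSubgroupOf] at h3
      obtain ⟨P, hP⟩ := h3
      refine ⟨P, fun σ => ?_⟩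
      rw [← hg]
      exact hP σ)
  let t : W.toAffine.Point ⊗[ℤ] ℚ_[p] ≃+ Fx (ga W) ⊗[ℤ] ℚ_[p] :=
    (TensorProduct.congr e.toIntLinearEquiv (LinearEquiv.refl ℤ ℚ_[p])).toAddEquiv
  refine ⟨t.trans (AddEquiv.ofBijective φ hφ), fun P z k Q h0 hQ => ?_⟩
  obtain ⟨c, hc1, hc2⟩ := hφ2 (e P) z k Q (by rw [he, h0]) hQ
  exact ⟨c, hc1, hc2⟩

end Pool.Agent.J6H22.BK
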