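import Pool.Agent.R459.Nbhd
import Pool.Agent.TH212.PL.L1

/-!
# Primes `p`, `q` whose sum is a cube
-/

set_option autoImplicit false

namespace Pool.Agent.J6H22.Gold

open Finset Polynomial
open Pool.Agent.W93.PG (cnt WinP)

/-- many representations -/
def Good (n : ℕ) : Prop := (n : ℝ) / (2 * Real.log n ^ 2) ≤ cnt n 0 n

lemma good_of {n : ℕ} (hn : 3 ≤ n) (h : WinP (1 / 2) 1 n) : Good n := by
  have hn3 : (3 : ℝ) ≤ n := by exact_mod_cast hn
  have hlog : 1 ≤ Real.log n := by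
    rw [Real.le_log_iff_exp_le (by linarith)]
    have := Real.exp_one_lt_d9
    linarith
  have h1 := h 0 n (by omega) le_rfl (by
    rw [pow_one, Nat.cast_zero, sub_zero]
    exact div_le_self (by positivity) hlog)
  have hs := Pool.Agent.W93.GB.one_le_sing n
  rw [Nat.cast_zero, sub_zero] at h1
  have h2 := (abs_le.1 h1).1
  obtain ⟨s, hs'⟩ : ∃ s, s = Pool.Agent.H560R3.GB.sing n := ⟨_, rfl⟩
  rw [← hs'] at h2 hs
  have h3 : (n : ℝ) / Real.log n ^ 2 ≤ s * n / Real.log n ^ 2 := by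
    apply div_le_div_of_nonneg_right _ (by positivity)
    nlinarith
  unfold Good
  have h4 : (n : ℝ) / (2 * Real.log n ^ 2) = 1 / 2 * (n / Real.log n ^ 2) := by
    field_simp
  rw [h4]
  linarith

/-- the polynomial `(6 X - 2)³` -/
noncomputable def fp : ℤ[X] := (C 6 * X - C 2) ^ 3

lemma fp_deg : fp.natDegree = 3 := by
  unfold fp
  rw [natDegree_pow]
  have : (C (6 : ℤ) * X - C 2).natDegree = 1 := by
    rw [sub_eq_add_neg, ← C_neg]
    exact natDegree_linear (by norm_num)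
  rw [this]

lemma fp_eval (i : ℕ) : fp.eval (((i : ℕ) + 1 : ℕ) : ℤ) = (((6 * i + 4) ^ 3 : ℕ) : ℤ) := by
  unfold fp
  rw [eval_pow, eval_sub, eval_mul, eval_C, eval_X, eval_C]
  push_cast
  ring

open scoped Classical in
/-- **Almost all cubes.** -/
theorem many_good : ∃ M0 : ℕ, ∀ M : ℕ, M0 ≤ M →
    (((univ : Finset (Fin M)).filter (fun i : Fin M => ¬ Good ((6 * (i : ℕ) + 4) ^ 3))).card : ℝ) ≤
      M / 8 := by
  obtain ⟨p, B, M1, -, h1⟩ := Pool.Agent.TH212.PL.poly_hyp fp (by rw [fp_deg]; norm_num) 0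
  rw [fp_deg] at h1
  -- the order is not zero
  have hp : 1 ≤ p := by
    by_contra hp0
    have hp0' : p = 0 := by omega
    subst hp0'
    have h2 := (h1 (M1 + 2) (by omega) 0 (by simp)).2
    have h3 : (Pool.Agent.TH212.PL.En 0 (fun i : Fin (M1 + 2) =>
        0 + fp.eval (((i : ℕ) + 1 : ℕ) : ℤ)) : ℝ) = 1 := by
      unfold Pool.Agent.TH212.PL.En
      simp
    rw [h3, one_mul, mul_zero, pow_zero, mul_one, pow_one] at h2
    have h4 : (0 : ℝ) < ((M1 + 2) ^ 3 : ℕ) := by positivity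
    have h5 := Real.log_le_sub_one_of_pos h4
    linarith
  obtain ⟨N₀, h0⟩ := Pool.Agent.R459.near_even p 1 B 1 1 1 3 hp (1 / 2) (by norm_num) Good
    (fun m hm _ hw => good_of hm hw)
  obtain ⟨M2, h2⟩ := Pool.Agent.TH212.PL.log_large 8
  refine ⟨M1 + N₀ + M2 + 1, fun M hM => ?_⟩
  have hM3 : M ≤ M ^ 3 := Nat.le_self_pow (by norm_num) M
  obtain ⟨h3, h4⟩ := h1 M (by omega) 0 (by simp)
  have h5 := h0 (M ^ 3) (by omega) (Fin M) (fun i => 0 + fp.eval (((i : ℕ) + 1 : ℕ) : ℤ))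
    (fun i => (abs_le.1 (h3 i)).2) h4
    ((univ : Finset (Fin M)).filter (fun i : Fin M => ¬ Good ((6 * (i : ℕ) + 4) ^ 3)))
    (fun i hi => ?_)
  · refine h5.trans ?_
    rw [Fintype.card_fin, pow_one]
    have h6 := (h2 (M ^ 3) (by omega)).2
    exact div_le_div_of_nonneg_left (by positivity) (by norm_num) h6
  · rw [mem_filter] at hi
    refine ⟨(6 * (i : ℕ) + 4) ^ 3, by positivity, ?_, ?_, hi.2⟩
    · have : Even (6 * (i : ℕ) + 4) := ⟨3 * (i : ℕ) + 2, by ring⟩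
      exact this.pow_of_ne_zero (by norm_num)
    · rw [zero_add, fp_eval, sub_self, Int.cast_zero, abs_zero]
      have : 0 ≤ Real.log ((M ^ 3 : ℕ) : ℝ) := Real.log_natCast_nonneg _
      positivity

/-- the products `p q` of different primes congruent to two modulo three whose sum is a cube -/
def DS : Set ℕ := {D | ∃ p q z : ℕ, p.Prime ∧ q.Prime ∧ p % 3 = 2 ∧ q % 3 = 2 ∧ p ≠ q ∧
  p + q = z ^ 3 ∧ D = p * q}

/-- the cubes -/
def nn (i : ℕ) : ℕ := (6 * i + 4) ^ 3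

/-- the pairs -/
def Pr (i : ℕ) : Finset ℕ := (Ioc 0 (nn i)).filter fun p =>
  (p.Prime ∧ (nn i - p).Prime) ∧ p ≠ 3 ∧ nn i - p ≠ 3

lemma nn_inj {i j : ℕ} (h : nn i = nn j) : i = j := by
  unfold nn at h
  have := Nat.pow_left_injective (n := 3) (by norm_num) h
  have h2 : 6 * i + 4 = 6 * j + 4 := this
  omega

lemma pr_spec {i p : ℕ} (h : p ∈ Pr i) : p.Prime ∧ (nn i - p).Prime ∧ p % 3 = 2 ∧
    (nn i - p) % 3 = 2 ∧ p ≠ nn i - p ∧ p + (nn i - p) = nn i := by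
  unfold Pr at h
  rw [mem_filter, mem_Ioc] at h
  obtain ⟨⟨h0, h1⟩, ⟨h2, h3⟩, h4, h5⟩ := h
  have hs : p + (nn i - p) = nn i := by omega
  have hn3 : nn i % 3 = 1 := by
    unfold nn
    rw [Nat.pow_mod]
    have : (6 * i + 4) % 3 = 1 := by omega
    rw [this]
  have hn8 : 8 ∣ nn i := by
    unfold nn
    have : (2 : ℕ) ^ 3 ∣ (6 * i + 4) ^ 3 := pow_dvd_pow_of_dvd ⟨3 * i + 2, by ring⟩ 3
    exact this
  have m1 : p % 3 ≠ 0 := fun h => h4 ((Nat.prime_dvd_prime_iff_eq Nat.prime_three h2).1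
    (Nat.dvd_of_mod_eq_zero h)).symm
  have m2 : (nn i - p) % 3 ≠ 0 := fun h => h5 ((Nat.prime_dvd_prime_iff_eq Nat.prime_three h3).1
    (Nat.dvd_of_mod_eq_zero h)).symm
  refine ⟨h2, h3, by omega, by omega, ?_, hs⟩
  intro he
  have h6 : nn i = 2 * p := by omega
  have h7 : 4 ∣ p := by omega
  obtain ⟨k, hk⟩ := h7
  have h8 : 2 ∣ p := ⟨2 * k, by omega⟩
  have h9 := (Nat.prime_dvd_prime_iff_eq Nat.prime_two h2).1 h8
  omega

lemma pr_card (i : ℕ) : (cnt (nn i) 0 (nn i) : ℝ) - 2 ≤ (Pr i).card := by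
  have h1 : (Ioc 0 (nn i)).filter (fun p => p.Prime ∧ (nn i - p).Prime) ⊆
      Pr i ∪ {3, nn i - 3} := by
    intro p hp
    rw [mem_filter, mem_Ioc] at hp
    rw [mem_union, mem_insert, mem_singleton]
    by_cases h3 : p = 3
    · exact Or.inr (Or.inl h3)
    · by_cases h4 : nn i - p = 3
      · exact Or.inr (Or.inr (by omega))
      · left
        unfold Pr
        rw [mem_filter, mem_Ioc]
        exact ⟨hp.1, hp.2, h3, h4⟩
  have h2 := (card_le_card h1).trans (card_union_le _ _)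
  have h3 : ({3, nn i - 3} : Finset ℕ).card ≤ 2 := card_le_two
  have h4 : cnt (nn i) 0 (nn i) ≤ (Pr i).card + 2 := by
    unfold Pool.Agent.W93.PG.cnt
    omega
  have h5 : (cnt (nn i) 0 (nn i) : ℝ) ≤ (Pr i).card + 2 := by exact_mod_cast h4
  linarith

/-- each product comes from at most two pairs -/
lemma pairs_le (M : ℕ) (I : Finset ℕ) (hI : ∀ i ∈ I, i < M) :
    (I.sigma fun i => Pr i).card ≤ 2 * ({D : ℕ | D ≤ (6 * M) ^ 6 ∧ D ∈ DS}).ncard := by
  have hfin : ({D : ℕ | D ≤ (6 * M) ^ 6 ∧ D ∈ DS}).Finite :=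
    (Set.finite_Iic ((6 * M) ^ 6)).subset fun D h => h.1
  rw [Set.ncard_eq_toFinset_card _ hfin]
  refine (card_le_mul_card_image (f := fun x : (Σ _ : ℕ, ℕ) => x.2 * (nn x.1 - x.2))
    (s := I.sigma fun i => Pr i) 2 ?_).trans ?_
  · intro D hD
    rw [mem_image] at hD
    obtain ⟨⟨i, p⟩, hip, rfl⟩ := hD
    rw [mem_sigma] at hip
    obtain ⟨h1, h2, -, -, h5, h6⟩ := pr_spec hip.2
    have hc : (p * (nn i - p)).primeFactors.card ≤ 2 := by
      rw [Nat.primeFactors_mul h1.ne_zero h2.ne_zero, h1.primeFactors, h2.primeFactors]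
      exact (card_union_le _ _).trans (by simp)
    refine (card_le_card_of_injOn (fun x : (Σ _ : ℕ, ℕ) => x.2) (fun x hx => ?_) ?_).trans hc
    · rw [mem_coe, mem_filter, mem_sigma] at hx
      obtain ⟨g1, g2, -⟩ := pr_spec hx.1.2
      rw [mem_coe, Nat.mem_primeFactors]
      exact ⟨g1, ⟨_, hx.2.symm⟩, mul_ne_zero h1.ne_zero h2.ne_zero⟩
    · rintro ⟨k, a⟩ hx ⟨l, b⟩ hy hab
      rw [mem_coe, mem_filter, mem_sigma] at hx hy
      have hab' : a = b := hab
      subst hab'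
      obtain ⟨g1, g2, -, -, -, g6⟩ := pr_spec hx.1.2
      obtain ⟨k1, k2, -, -, -, k6⟩ := pr_spec hy.1.2
      have e1 : a * (nn k - a) = a * (nn l - a) := hx.2.trans hy.2.symm
      have e2 := Nat.eq_of_mul_eq_mul_left g1.pos e1
      have e3 : k = l := by
        apply nn_inj
        simp only at g6 k6
        omega
      rw [e3]
  · apply Nat.mul_le_mul_left
    apply card_le_card
    intro D hD
    rw [mem_image] at hD
    obtain ⟨⟨i, p⟩, hip, rfl⟩ := hD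
    rw [mem_sigma] at hip
    obtain ⟨h1, h2, h3, h4, h5, h6⟩ := pr_spec hip.2
    rw [Set.Finite.mem_toFinset]
    have hi := hI i hip.1
    have hn : nn i ≤ (6 * M) ^ 3 := by
      unfold nn
      apply Nat.pow_le_pow_left
      omega
    refine ⟨?_, p, nn i - p, 6 * i + 4, h1, h2, h3, h4, h5, h6, rfl⟩
    have h7 : p + (nn i - p) = nn i := h6
    calc p * (nn i - p) ≤ nn i * nn i := Nat.mul_le_mul (by omega) (by omega)
      _ ≤ (6 * M) ^ 3 * (6 * M) ^ 3 := Nat.mul_le_mul hn hn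
      _ = (6 * M) ^ 6 := by ring

open scoped Classical in
/-- the number of the pairs -/
lemma pairs_ge : ∃ M0 : ℕ, ∀ M : ℕ, M0 ≤ M →
    (M : ℝ) ^ 4 / (24 * Real.log (6 * M) ^ 2) ≤
      (((range M).filter (fun i => M ≤ 4 * i ∧ Good (nn i))).sigma fun i => Pr i).card := by
  obtain ⟨M1, h1⟩ := many_good
  -- growth
  have hg : ∃ M2 : ℕ, ∀ M : ℕ, M2 ≤ M → 2 ≤ (M : ℝ) ^ 3 / (12 * Real.log (6 * M) ^ 2) := by
    refine ⟨1000, fun M hM => ?_⟩
    have hM' : (1000 : ℝ) ≤ M := by exact_mod_cast hM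
    have hl : Real.log (6 * M) ≤ 6 * M := by
      have := Real.log_le_sub_one_of_pos (show (0 : ℝ) < 6 * M by linarith)
      linarith
    have hl0 : 0 < Real.log (6 * M) := Real.log_pos (by linarith)
    rw [le_div_iff₀ (by positivity)]
    have h2 : Real.log (6 * M) ^ 2 ≤ (6 * M) ^ 2 := pow_le_pow_left₀ hl0.le hl 2
    nlinarith [sq_nonneg (M : ℝ)]
  obtain ⟨M2, h2⟩ := hg
  refine ⟨M1 + M2 + 1000, fun M hM => ?_⟩
  have hM' : (1000 : ℝ) ≤ M := by exact_mod_cast (by omega : 1000 ≤ M)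
  have hl0 : 0 < Real.log (6 * M) := Real.log_pos (by linarith)
  obtain ⟨I, hI⟩ : ∃ I, I = (range M).filter (fun i => M ≤ 4 * i ∧ Good (nn i)) := ⟨_, rfl⟩
  rw [← hI]
  -- the number of the indices
  have hIc : (M : ℝ) / 2 ≤ I.card := by
    have e1 : (range M).filter (fun i => M ≤ 4 * i) ⊆
        I ∪ (range M).filter (fun i => ¬ Good (nn i)) := by
      intro i hi
      rw [mem_filter] at hi
      rw [mem_union, hI, mem_filter, mem_filter]
      by_cases h3 : Good (nn i)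
      · exact Or.inl ⟨hi.1, hi.2, h3⟩
      · exact Or.inr ⟨hi.1, h3⟩
    have e2 := (card_le_card e1).trans (card_union_le _ _)
    have e3 : ((range M).filter (fun i => ¬ Good (nn i))).card ≤
        ((univ : Finset (Fin M)).filter (fun i : Fin M => ¬ Good ((6 * (i : ℕ) + 4) ^ 3))).card := by
      refine (card_le_card (t := ((univ : Finset (Fin M)).filter
        (fun i : Fin M => ¬ Good ((6 * (i : ℕ) + 4) ^ 3))).image Fin.val) ?_).trans card_image_le
      intro i hi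
      rw [mem_filter, mem_range] at hi
      rw [mem_image]
      exact ⟨⟨i, hi.1⟩, mem_filter.2 ⟨mem_univ _, hi.2⟩, rfl⟩
    have e4 : 3 * M ≤ 4 * ((range M).filter (fun i => M ≤ 4 * i)).card + 3 := by
      have e5 : Ico ((M + 3) / 4) M ⊆ (range M).filter (fun i => M ≤ 4 * i) := by
        intro i hi
        rw [mem_Ico] at hi
        rw [mem_filter, mem_range]
        omega
      have e6 := card_le_card e5
      rw [Nat.card_Ico] at e6
      omega
    have e5 := h1 M (by omega)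
    have e6 : (3 * (M : ℝ)) ≤ 4 * (((range M).filter (fun i => M ≤ 4 * i)).card : ℝ) + 3 := by
      exact_mod_cast e4
    have e7 : (((range M).filter (fun i => M ≤ 4 * i)).card : ℝ) ≤ I.card +
        (((univ : Finset (Fin M)).filter (fun i : Fin M => ¬ Good ((6 * (i : ℕ) + 4) ^ 3))).card :
          ℝ) := by
      exact_mod_cast e2.trans (Nat.add_le_add_left e3 _)
    linarith
  -- the number of the primes
  have hPr : ∀ i ∈ I, (M : ℝ) ^ 3 / (12 * Real.log (6 * M) ^ 2) ≤ (Pr i).card := by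
    intro i hi
    rw [hI, mem_filter, mem_range] at hi
    obtain ⟨i1, i2, i3⟩ := hi
    have i4 := pr_card i
    have hi' : (M : ℝ) ≤ 4 * i := by exact_mod_cast i2
    have n1 : 3 * (M : ℝ) ^ 3 ≤ nn i := by
      unfold nn
      push_cast
      have e1 : (3 / 2 : ℝ) * M ≤ 6 * i + 4 := by linarith
      calc 3 * (M : ℝ) ^ 3 ≤ (3 / 2 * (M : ℝ)) ^ 3 := by
            have : (0 : ℝ) ≤ (M : ℝ) ^ 3 := by positivity
            have e2 : (3 / 2 * (M : ℝ)) ^ 3 = 27 / 8 * (M : ℝ) ^ 3 := by ring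
            rw [e2]
            linarith
        _ ≤ (6 * (i : ℝ) + 4) ^ 3 := pow_le_pow_left₀ (by positivity) e1 3
    have n2 : (nn i : ℝ) ≤ (6 * M) ^ 3 := by
      have : nn i ≤ (6 * M) ^ 3 := by
        unfold nn
        apply Nat.pow_le_pow_left
        omega
      exact_mod_cast this
    have n0 : (1 : ℝ) < nn i := by
      have : (1 : ℝ) ≤ (M : ℝ) ^ 3 := one_le_pow₀ (by linarith)
      linarith
    have n3 : Real.log (nn i) ≤ 3 * Real.log (6 * M) := by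
      have := Real.log_le_log (by linarith) n2
      rw [Real.log_pow] at this
      exact_mod_cast this
    have n4 : 0 < Real.log (nn i) := Real.log_pos n0
    have n5 : (M : ℝ) ^ 3 / (6 * Real.log (6 * M) ^ 2) ≤ (nn i : ℝ) / (2 * Real.log (nn i) ^ 2) := by
      rw [div_le_div_iff₀ (by positivity) (by positivity)]
      have n6 : Real.log (nn i) ^ 2 ≤ (3 * Real.log (6 * M)) ^ 2 := pow_le_pow_left₀ n4.le n3 2
      have n7 : (0 : ℝ) ≤ (M : ℝ) ^ 3 := by positivity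
      calc (M : ℝ) ^ 3 * (2 * Real.log (nn i) ^ 2) ≤ (M : ℝ) ^ 3 * (2 * (3 * Real.log (6 * M)) ^ 2) := by
            gcongr
        _ = (3 * (M : ℝ) ^ 3) * (6 * Real.log (6 * M) ^ 2) := by ring
        _ ≤ nn i * (6 * Real.log (6 * M) ^ 2) := by gcongr
    have n8 : (M : ℝ) ^ 3 / (6 * Real.log (6 * M) ^ 2) =
        2 * ((M : ℝ) ^ 3 / (12 * Real.log (6 * M) ^ 2)) := by
      field_simp
      ring
    have n9 := h2 M (by omega)
    have i3' : (nn i : ℝ) / (2 * Real.log (nn i) ^ 2) ≤ cnt (nn i) 0 (nn i) := i3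
    linarith
  rw [card_sigma]
  push_cast
  calc (M : ℝ) ^ 4 / (24 * Real.log (6 * M) ^ 2) =
        (M : ℝ) / 2 * ((M : ℝ) ^ 3 / (12 * Real.log (6 * M) ^ 2)) := by
        field_simp
        ring
    _ ≤ I.card * ((M : ℝ) ^ 3 / (12 * Real.log (6 * M) ^ 2)) := by gcongr
    _ = ∑ i ∈ I, ((M : ℝ) ^ 3 / (12 * Real.log (6 * M) ^ 2)) := by rw [sum_const, nsmul_eq_mul]
    _ ≤ ∑ i ∈ I, ((Pr i).card : ℝ) := sum_le_sum hPr

/-- **The number of the products.** -/
theorem many : ∃ c : ℝ, 0 < c ∧ ∃ X₀ : ℕ, ∀ X : ℕ, X₀ ≤ X →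
    c * ((X : ℝ) ^ (2 / 3 : ℝ) / Real.log X ^ 2) ≤ ({D : ℕ | D ≤ X ∧ D ∈ DS}.ncard : ℝ) := by
  classical
  obtain ⟨M0, h0⟩ := pairs_ge
  refine ⟨1 / (48 * 12 ^ 4), by norm_num, (12 * (M0 + 2)) ^ 6, fun X hX => ?_⟩
  obtain ⟨y, hy⟩ : ∃ y : ℝ, y = (X : ℝ) ^ (1 / 6 : ℝ) := ⟨_, rfl⟩
  have hX0 : (0 : ℝ) ≤ X := Nat.cast_nonneg _
  have hy0 : 0 ≤ y := by rw [hy]; positivity
  have hy6 : y ^ 6 = X := by
    rw [hy, ← Real.rpow_natCast, ← Real.rpow_mul hX0]
    norm_num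
  have hy4 : y ^ 4 = (X : ℝ) ^ (2 / 3 : ℝ) := by
    rw [hy, ← Real.rpow_natCast, ← Real.rpow_mul hX0]
    norm_num
  have hyM : (12 : ℝ) * (M0 + 2) ≤ y := by
    have h1 : ((12 : ℝ) * (M0 + 2)) ^ 6 ≤ y ^ 6 := by
      rw [hy6]
      exact_mod_cast hX
    exact le_of_pow_le_pow_left₀ (by norm_num) hy0 h1
  have hM0' : (0 : ℝ) ≤ M0 := Nat.cast_nonneg _
  obtain ⟨M, hM⟩ : ∃ M, M = ⌊y / 6⌋₊ := ⟨_, rfl⟩
  have hM1 : (M : ℝ) ≤ y / 6 := by
    rw [hM]
    exact Nat.floor_le (by positivity)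
  have hM2 : y / 6 < M + 1 := by
    rw [hM]
    exact Nat.lt_floor_add_one _
  have hM3 : y / 12 ≤ M := by linarith
  have hM4 : M0 + 2 ≤ M := by
    have : ((M0 + 2 : ℕ) : ℝ) ≤ M := by
      push_cast
      linarith
    exact_mod_cast this
  have h1 := h0 M (by omega)
  have h2 := pairs_le M ((range M).filter (fun i => M ≤ 4 * i ∧ Good (nn i))) (fun i hi => by
    rw [mem_filter, mem_range] at hi
    exact hi.1)
  have h3 : ({D : ℕ | D ≤ (6 * M) ^ 6 ∧ D ∈ DS}).ncard ≤ ({D : ℕ | D ≤ X ∧ D ∈ DS}).ncard := by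
    apply Set.ncard_le_ncard
    · intro D hD
      refine ⟨hD.1.trans ?_, hD.2⟩
      have h4 : (6 * (M : ℝ)) ^ 6 ≤ X := by
        rw [← hy6]
        exact pow_le_pow_left₀ (by positivity) (by linarith) 6
      exact_mod_cast h4
    · exact (Set.finite_Iic X).subset fun D h => h.1
  have h4 : (((((range M).filter (fun i => M ≤ 4 * i ∧ Good (nn i))).sigma fun i => Pr i).card : ℕ) :
      ℝ) ≤ 2 * (({D : ℕ | D ≤ X ∧ D ∈ DS}).ncard : ℝ) := by
    exact_mod_cast h2.trans (Nat.mul_le_mul_left 2 h3)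
  have hMpos : (2 : ℝ) ≤ M := by
    have : ((2 : ℕ) : ℝ) ≤ M := by exact_mod_cast (by omega : 2 ≤ M)
    exact_mod_cast this
  have hl1 : Real.log (6 * M) ≤ Real.log X := by
    apply Real.log_le_log (by linarith)
    rw [← hy6]
    have : y ≤ y ^ 6 := le_self_pow₀ (by linarith) (by norm_num)
    linarith
  have hl0 : 0 < Real.log (6 * M) := Real.log_pos (by linarith)
  have h5 : 1 / (48 * 12 ^ 4) * ((X : ℝ) ^ (2 / 3 : ℝ) / Real.log X ^ 2) ≤
      (M : ℝ) ^ 4 / (24 * Real.log (6 * M) ^ 2) / 2 := by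
    rw [← hy4]
    calc 1 / (48 * 12 ^ 4) * (y ^ 4 / Real.log X ^ 2) = (y / 12) ^ 4 / (24 * Real.log X ^ 2) / 2 := by
          field_simp
          ring
      _ ≤ (M : ℝ) ^ 4 / (24 * Real.log (6 * M) ^ 2) / 2 := by
          gcongr
  linarith

end Pool.Agent.J6H22.Gold
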