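import Pool.Agent.Y703.XL.InfB

/-!
# Points of infinite order on `y² + D y = x³`
-/

set_option autoImplicit false

open scoped Classical

namespace Pool.Agent.J6H22.BK

open WeierstrassCurve
open Pool.Agent.TH841.SH.D (Pt act Gal)
open Pool.Agent.Y703.XL.Inf

section
variable {K : Type} [Field K] [CharZero K] {D z : K} {L : Type} [Field L] [Algebra K L]

/-- the second coordinate of `√-3 P` is a cube -/
lemma ph_cube (hD : D ≠ 0) (hz : z ^ 2 + z + 1 = 0) {x y : L}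
    (h : ((E1 D).baseChange L).toAffine.Nonsingular x y) (hx : x ≠ 0) :
    ∃ X g h', ph hz (pp x y h : Pt (E1 D) L) = pp X (g ^ 3) h' := by
  have := ch K L
  have h0 := nrm hD hz (pp x y h : Pt (E1 D) L)
  have e0 : ph hz (pp x y h : Pt (E1 D) L) =
      rh hz (pp x y h : Pt (E1 D) L) +
      -(rh hz (rh hz (pp x y h : Pt (E1 D) L))) := by
    rw [ph_apply, ← sub_eq_zero, ← h0]
    abel
  have h4 := zz (L := L) hz
  have hzne := z_ne (L := L) hz
  have hz1 := z_ne1 (L := L) hz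
  have hne : algebraMap K L z * x ≠ algebraMap K L z * (algebraMap K L z * x) := by
    intro e
    have h1 := mul_left_cancel₀ hzne e
    have h2 : (algebraMap K L z - 1) * x = 0 := by linear_combination -h1
    rcases mul_eq_zero.1 h2 with h3 | h3
    · exact hz1 (sub_eq_zero.1 h3)
    · exact hx h3
  rw [e0, rh_pp, rh_pp, neg_pp]
  obtain ⟨w, hw⟩ : ∃ w, w = algebraMap K L z := ⟨_, rfl⟩
  obtain ⟨d, hd⟩ : ∃ d, d = algebraMap K L D := ⟨_, rfl⟩
  have hs0 : (2 * w + 1) ≠ 0 := by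
    intro e
    rw [← hw] at h4
    have h5 : (3 : L) = 0 := by linear_combination 4 * h4 - (2 * w + 1) * e
    norm_num at h5
  have hsl : ((E1 D).baseChange L).toAffine.slope (algebraMap K L z * x)
      (algebraMap K L z * (algebraMap K L z * x)) y (-y - algebraMap K L D) =
      (2 * y + d) / ((2 * w + 1) * x) := by
    rw [Affine.slope_of_X_ne hne]
    rw [← hw] at hne h4 ⊢
    rw [← hd, div_eq_div_iff (sub_ne_zero.2 hne) (mul_ne_zero hs0 hx)]
    linear_combination ((2 * y + d) * x) * h4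
  obtain ⟨h', e1⟩ := add_pp (rns hz h) (nns (rns hz (rns hz h))) (fun hh => hne hh.1) hsl
  have hq := (eqn _ _).1 h.1
  rw [← hd] at hq
  rw [← hw] at h4
  have hY : -((2 * y + d) / ((2 * w + 1) * x) * (((2 * y + d) / ((2 * w + 1) * x)) ^ 2 -
      algebraMap K L z * x - algebraMap K L z * (algebraMap K L z * x) - algebraMap K L z * x) + y) -
      algebraMap K L D = (-((1 + w) * y + w * d) / ((2 * w + 1) * x)) ^ 3 := by
    rw [← hw, ← hd]
    field_simp
    linear_combination (8 * w ^ 2 * y ^ 3 + 12 * w ^ 2 * y ^ 2 * d + 4 * w ^ 2 * y * d ^ 2 +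
      9 * w * y ^ 3 + 11 * w * y ^ 2 * d + 3 * w * y * d ^ 2 + w * d ^ 3 - 8 * y ^ 3 -
      14 * y ^ 2 * d - 7 * y * d ^ 2 - d ^ 3) * h4 -
      (8 * w ^ 4 * y + 4 * w ^ 4 * d + 16 * w ^ 3 * y + 4 * w ^ 3 * d + 6 * w ^ 2 * y -
      3 * w ^ 2 * d - 2 * w * y - 4 * w * d - y - d) * hq
  have h'' := h'
  rw [hY] at h''
  exact ⟨_, _, h'', e1.trans (pp_ext _ _ rfl hY)⟩

/-- adding the point `(0, 0)` -/
lemma add_T0 {x y : L} (h : ((E1 D).baseChange L).toAffine.Nonsingular x y)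
    (hx : x ≠ 0) (h0 : ((E1 D).baseChange L).toAffine.Nonsingular 0 0) :
    ∃ h', (pp x y h + pp 0 0 h0 : Pt (E1 D) L) =
      pp (-(algebraMap K L D * y) / x ^ 2) (-((algebraMap K L D) ^ 2 * y) / x ^ 3) h' := by
  have := ch K L
  obtain ⟨d, hd⟩ : ∃ d, d = algebraMap K L D := ⟨_, rfl⟩
  have hq := (eqn _ _).1 h.1
  have hsl : ((E1 D).baseChange L).toAffine.slope x 0 y 0 = y / x := by
    rw [Affine.slope_of_X_ne hx, sub_zero, sub_zero]
  obtain ⟨h', e1⟩ := add_pp h h0 (fun hh => hx hh.1) hsl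
  rw [← hd] at hq ⊢
  have hX : (y / x) ^ 2 - x - 0 = -(d * y) / x ^ 2 := by
    field_simp
    linear_combination hq
  have hY : -(y / x * ((y / x) ^ 2 - x - 0 - x) + y) - algebraMap K L D = -(d ^ 2 * y) / x ^ 3 := by
    rw [← hd]
    field_simp
    linear_combination (-(y - d)) * hq
  have h'' := h'
  rw [hY, hX] at h''
  exact ⟨h'', e1.trans (pp_ext _ _ hX hY)⟩

end

/-- splitting of a finite group -/
lemma fin_split {M : Type} [AddCommGroup M] [Finite M] (φ : M →+ M)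
    (h : ∀ x, φ (φ x) = 0 → φ x = 0) (P : M) : ∃ Q, φ (P - φ Q) = 0 := by
  let f : φ.range → φ.range := fun x => ⟨φ x.1, ⟨x.1, rfl⟩⟩
  have hf : Function.Injective f := by
    rintro ⟨_, x, rfl⟩ ⟨_, y, rfl⟩ hxy
    have h1 : φ (φ x) = φ (φ y) := congrArg Subtype.val hxy
    apply Subtype.ext
    have h2 : φ (φ (x - y)) = 0 := by rw [map_sub, map_sub, h1, sub_self]
    have h3 := h _ h2
    rw [map_sub, sub_eq_zero] at h3
    exact h3
  have hs : Function.Surjective f := Finite.injective_iff_surjective.1 hf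
  obtain ⟨⟨_, Q, rfl⟩, hQ⟩ := hs ⟨φ P, ⟨P, rfl⟩⟩
  refine ⟨Q, ?_⟩
  have h1 : φ (φ Q) = φ P := congrArg Subtype.val hQ
  rw [map_sub, h1, sub_self]

section
variable {K : Type} [Field K] [CharZero K] {D z : K}

/-- If the group of points is finite, then the classes of the second coordinates modulo cubes are in
the group generated by `D`. -/
theorem cls_of_finite [Finite (Pt (E1 D) K)] (hD : D ≠ 0) (hz : z ^ 2 + z + 1 = 0)
    (hc : ∀ t : K, t ^ 3 ≠ D) {x y : K} (h : ((E1 D).baseChange K).toAffine.Nonsingular x y)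
    (hx : x ≠ 0) : ∃ g : K, y = g ^ 3 ∨ y = D * g ^ 3 ∨ y = D ^ 2 * g ^ 3 := by
  have h2 : ∀ R : Pt (E1 D) K, ph hz (ph hz R) = 0 → ph hz R = 0 := by
    intro R h2
    by_contra h1
    obtain ⟨x, y, h, rfl, hx⟩ := ph_ker2 hD hz R h1 h2
    have h3 : x ^ 3 = -D ^ 2 := hx
    have ht0 : x ≠ 0 := by
      rintro rfl
      apply hD
      apply pow_eq_zero_iff two_ne_zero |>.1
      linear_combination h3
    apply hc (-(D / x))
    rw [neg_pow, div_pow, h3]
    field_simp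
  obtain ⟨Q, hQ⟩ := fin_split (ph (L := K) hz) h2 (pp x y h)
  have hP0 : ph hz (pp x y h : Pt (E1 D) K) ≠ 0 := by
    intro h3
    rcases (ph_ker hD hz _).1 h3 with h4 | ⟨y', h', h4⟩
    · exact pp_ne h h4
    · exact hx (pp_inj h4).1
  have hR : ph hz (ph hz Q) ≠ 0 := by
    intro h3
    rw [map_sub, h3, sub_zero] at hQ
    exact hP0 hQ
  obtain ⟨X, g, h', e1⟩ : ∃ X g h', ph hz Q = (pp X (g ^ 3) h' : Pt (E1 D) K) := by
    rcases pp_cases Q with rfl | ⟨x', y', h', rfl⟩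
    · exact absurd (by rw [map_zero, map_zero]) hR
    · by_cases hx' : x' = 0
      · subst hx'
        exact absurd (by rw [ph_0 hD hz h', map_zero]) hR
      · exact ph_cube hD hz h' hx'
  have hX : X ≠ 0 := by
    rintro rfl
    exact hR (by rw [e1, ph_0 hD hz h'])
  have hq : (g ^ 3) ^ 2 + D * g ^ 3 = X ^ 3 := (eqn _ _).1 h'.1
  have hg : g ≠ 0 := by
    rintro rfl
    apply hX
    apply pow_eq_zero_iff three_ne_zero |>.1
    rw [← hq]
    ring
  rw [e1] at hQ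
  obtain ⟨T, hT⟩ : ∃ T : Pt (E1 D) K, T = pp x y h - pp X (g ^ 3) h' := ⟨_, rfl⟩
  rw [← hT] at hQ
  have hP : (pp x y h : Pt (E1 D) K) = pp X (g ^ 3) h' + T := by
    rw [hT]
    abel
  have h0 : ((E1 D).baseChange K).toAffine.Nonsingular 0 0 := ns_of hD (by ring)
  rcases (ph_ker hD hz T).1 hQ with rfl | ⟨y', hn, rfl⟩
  · rw [add_zero] at hP
    exact ⟨g, Or.inl (pp_inj hP).2⟩
  · have h3 : y' * (y' + D) = 0 := by
      have : y' ^ 2 + D * y' = 0 ^ 3 := (eqn _ _).1 hn.1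
      linear_combination this
    rcases mul_eq_zero.1 h3 with h4 | h4
    · obtain ⟨h5, e5⟩ := add_T0 h' hX h0
      have e6 : (pp 0 y' hn : Pt (E1 D) K) = pp 0 0 h0 := pp_ext _ _ rfl h4
      rw [e6, e5] at hP
      refine ⟨-g / X, Or.inr (Or.inr ?_)⟩
      rw [(pp_inj hP).2]
      show -(D ^ 2 * g ^ 3) / X ^ 3 = _
      field_simp
    · have e6 : (pp 0 y' hn : Pt (E1 D) K) = -pp 0 0 h0 := by
        rw [neg_pp]
        exact pp_ext _ _ rfl (by
          show y' = -0 - D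
          linear_combination h4)
      have hP2 : -(pp x y h : Pt (E1 D) K) = -pp X (g ^ 3) h' + pp 0 0 h0 := by
        rw [hP, e6]
        abel
      obtain ⟨h5, e5⟩ := add_T0 (nns h') hX h0
      rw [neg_pp, neg_pp, e5] at hP2
      refine ⟨-X / g ^ 2, Or.inr (Or.inl ?_)⟩
      have h6 := (pp_inj hP2).2
      have h7 : -y - D = -(D ^ 2 * (-g ^ 3 - D)) / X ^ 3 := h6
      have h8 : y = -D - -(D ^ 2 * (-g ^ 3 - D)) / X ^ 3 := by
        rw [← h7]
        ring
      rw [h8]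
      field_simp
      linear_combination (-(X ^ 3 + D * g ^ 3)) * hq

/-- **Points of infinite order.** A solution of `p X³ + q Y³ = Z³` gives infinitely many points on
`y² + p q y = x³`. -/
theorem infinite_of {p q X Y Z : K} (hz : z ^ 2 + z + 1 = 0) (hp : p ≠ 0) (hq : q ≠ 0)
    (hX : X ≠ 0) (hY : Y ≠ 0) (hZ : Z ≠ 0) (h : p * X ^ 3 + q * Y ^ 3 = Z ^ 3)
    (hc : ∀ t : K, t ^ 3 ≠ p * q) (h1 : ∀ t : K, t ^ 3 ≠ p) (h2 : ∀ t : K, t ^ 3 ≠ q)
    (h3 : ∀ t : K, t ^ 3 ≠ p ^ 2 * q) : ¬ Finite (Pt (E1 (p * q)) K) := by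
  intro hfin
  have hD : p * q ≠ 0 := mul_ne_zero hp hq
  have hn : ((E1 (p * q)).baseChange K).toAffine.Nonsingular (-(p * q * X * Y) / Z ^ 2)
      (-(p ^ 2 * q * X ^ 3) / Z ^ 3) := by
    apply ns_of hD
    show (-(p ^ 2 * q * X ^ 3) / Z ^ 3) ^ 2 + (p * q) * (-(p ^ 2 * q * X ^ 3) / Z ^ 3) =
      (-(p * q * X * Y) / Z ^ 2) ^ 3
    field_simp
    linear_combination h
  obtain ⟨g, hg⟩ := cls_of_finite hD hz hc hn (by
    apply div_ne_zero
    · exact neg_ne_zero.2 (mul_ne_zero (mul_ne_zero hD hX) hY)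
    · exact pow_ne_zero _ hZ)
  rcases hg with hg | hg | hg
  · apply h3 (-g * Z / X)
    field_simp at hg ⊢
    linear_combination hg
  · apply h1 (-g * Z / X)
    field_simp at hg ⊢
    linear_combination hg
  · have hg0 : g ≠ 0 := by
      rintro rfl
      have h4 : -(p ^ 2 * q * X ^ 3) / Z ^ 3 ≠ 0 := by
        apply div_ne_zero
        · exact neg_ne_zero.2 (mul_ne_zero (mul_ne_zero (pow_ne_zero _ hp) hq) (pow_ne_zero _ hX))
        · exact pow_ne_zero _ hZ
      apply h4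
      rw [hg]
      ring
    apply h2 (-(X / (g * Z)))
    field_simp at hg ⊢
    linear_combination hg

end

end Pool.Agent.J6H22.BK
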