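import Pool.Agent.R419.MX.Fin
import Pool.Agent.Y696.XL.Fin
import Pool.Agent.Y274.CT.ExiCnt
import Pool.Agent.J6H22.BK.Inf
import Pool.Agent.J6H22.BK.Ell

/-!
# `D = p q` with primes `p`, `q` congruent to two modulo three
-/

set_option autoImplicit false
set_option linter.unusedVariables false

open scoped Classical

namespace Pool.Agent.J6H22.BK

open NumberField WeierstrassCurve
open Pool.Agent.Y692.QS (Ei w nr)
open Pool.Agent.Y703.CT (ClsE)
open Pool.Agent.Y696.CTK (ClsK IsFact ED)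
open Pool.Agent.Y696.XK (cls_iff)
open Pool.Agent.XL6 (SelK nL oneK)
open Pool.Agent.R419.KF (ClsKC)
open Pool.Agent.Y703.XL.Inf (E1)

section
variable {p q : ℕ}

lemma rel (hp : p.Prime) (hq : q.Prime) (hne : p ≠ q) : IsRelPrime (p : Ei) (q : Ei) := by
  have h1 : IsCoprime (p : ℤ) (q : ℤ) :=
    Nat.isCoprime_iff_coprime.2 ((Nat.coprime_primes hp hq).2 hne)
  have h2 := h1.map (Int.castRingHom Ei)
  have h3 : IsCoprime (p : Ei) (q : Ei) := by simpa using h2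
  exact h3.isRelPrime

lemma clsE (hp : p.Prime) (hq : q.Prime) (hp3 : p % 3 = 2) (hq3 : q % 3 = 2) (hne : p ≠ q)
    (h9 : p * q % 9 ≠ 1) : ClsE ((p : Ei) * q) := by
  have hPp := Pool.Agent.Y274.CT.prime_two hp hp3
  have hPq := Pool.Agent.Y274.CT.prime_two hq hq3
  have hm : p * q % 3 = 1 := by
    rw [Nat.mul_mod, hp3, hq3]
  refine ⟨?_, ?_, ?_⟩
  · obtain ⟨k, hk⟩ : ∃ k, p * q = 3 * k + 1 := ⟨p * q / 3, by omega⟩
    refine ⟨(k : Ei), ?_⟩
    have h1 : (p : Ei) * q = 3 * k + 1 := by exact_mod_cast congrArg (Nat.cast (R := Ei)) hk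
    rw [h1]
    ring
  · exact squarefree_mul_iff.2 ⟨rel hp hq hne, hPp.squarefree, hPq.squarefree⟩
  · have h1 : nr ((p : Ei) * q) = ((p * q : ℕ) : ℤ) ^ 2 := by
      have : (p : Ei) * q = ((p * q : ℕ) : Ei) := by push_cast; rfl
      rw [this]
      exact Pool.Agent.Y692.QS.nr_nat _
    rw [h1]
    intro h
    have h2 : (9 : ℤ) ∣ (((p * q : ℕ) : ℤ) - 1) * (((p * q : ℕ) : ℤ) + 1) := by
      have e : (((p * q : ℕ) : ℤ) - 1) * (((p * q : ℕ) : ℤ) + 1) = ((p * q : ℕ) : ℤ) ^ 2 - 1 := by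
        ring
      rw [e]
      exact h
    obtain ⟨k, hk⟩ : ∃ k, p * q = 3 * k + 1 := ⟨p * q / 3, by omega⟩
    rw [hk] at h2
    push_cast at h2
    obtain ⟨m, hm'⟩ := h2
    have h3 : k % 3 ≠ 0 := by
      intro h0
      apply h9
      rw [hk]
      omega
    have h4 : (k : ℤ) * (3 * k + 2) = 3 * m := by linarith
    have h5 : (3 : ℤ) ∣ k * 2 := ⟨m - k * k, by linarith⟩
    omega

/-- Fermat's theorem -/
lemma ferm (hp : p.Prime) (hq : q.Prime) (hq3 : q % 3 = 2) (hne : p ≠ q) :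
    (q : ℤ) ∣ (-(p : ℤ)) ^ ((q ^ 2 - 1) / 3) - 1 := by
  have : Fact q.Prime := ⟨hq⟩
  have hq1 := hq.two_le
  have h1 : (q ^ 2 - 1) / 3 = (q - 1) * ((q + 1) / 3) := by
    obtain ⟨k, hk⟩ : ∃ k, q = 3 * k + 2 := ⟨q / 3, by omega⟩
    subst hk
    have e1 : (3 * k + 2) ^ 2 - 1 = 3 * ((3 * k + 1) * (k + 1)) := by
      have : (3 * k + 2) ^ 2 = 3 * ((3 * k + 1) * (k + 1)) + 1 := by ring
      omega
    have e2 : (3 * k + 2 + 1) / 3 = k + 1 := by omega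
    rw [e1, e2, Nat.mul_div_cancel_left _ (by norm_num)]
    congr 1
  rw [← ZMod.intCast_zmod_eq_zero_iff_dvd]
  push_cast
  have h2 : (-(p : ZMod q)) ≠ 0 := by
    rw [neg_ne_zero]
    intro h
    rw [ZMod.natCast_eq_zero_iff] at h
    exact hne ((Nat.prime_dvd_prime_iff_eq hq hp).1 h).symm
  rw [h1, pow_mul, ZMod.pow_card_sub_one_eq_one h2, one_pow, sub_self]

variable (K : Type) [Field K] [NumberField K] [IsCyclotomicExtension {3} ℚ K]

lemma clsK (hp : p.Prime) (hq : q.Prime) (hp3 : p % 3 = 2) (hq3 : q % 3 = 2) (hne : p ≠ q)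
    (h9 : p * q % 9 ≠ 1) : ClsK ((p : 𝓞 K) * (q : 𝓞 K)) := by
  obtain ⟨⟨j, hj⟩, -⟩ := Pool.Agent.Y455.CTK.jex K
  have h1 := (cls_iff j hj _).2 (clsE hp hq hp3 hq3 hne h9)
  rw [map_mul, map_natCast, map_natCast] at h1
  exact h1

lemma selK_le (hp : p.Prime) (hq : q.Prime) (hp3 : p % 3 = 2) (hq3 : q % 3 = 2) (hne : p ≠ q)
    (h9 : p * q % 9 ≠ 1) : (SelK ((((p : 𝓞 K) * (q : 𝓞 K) : 𝓞 K)) : K)).ncard ≤ 9 := by
  obtain ⟨⟨j, hj⟩, -⟩ := Pool.Agent.Y455.CTK.jex K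
  obtain ⟨-, -, h3⟩ := oneK (clsK K hp hq hp3 hq3 hne h9)
  have hprime : ∀ r : ℕ, r.Prime → r % 3 = 2 → Prime (-(r : 𝓞 K)) := by
    intro r hr hr3
    have h1 := (MulEquiv.prime_iff j.toMulEquiv).2 (Pool.Agent.Y274.CT.prime_two hr hr3)
    have h2 : j.toMulEquiv (r : Ei) = (r : 𝓞 K) := map_natCast j r
    rw [h2] at h1
    exact h1.neg
  have hthree : ∀ r : ℕ, r % 3 = 2 → (3 : 𝓞 K) ∣ -(r : 𝓞 K) - 1 := by
    intro r hr3
    obtain ⟨k, hk⟩ : ∃ k, r = 3 * k + 2 := ⟨r / 3, by omega⟩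
    refine ⟨-(k : 𝓞 K) - 1, ?_⟩
    rw [hk]
    push_cast
    ring
  have hnorm : ∀ r : ℕ, (Algebra.norm ℤ (-(r : 𝓞 K))).natAbs = r ^ 2 := by
    intro r
    have h1 := hj (-(r : Ei))
    rw [map_neg, map_natCast] at h1
    rw [h1]
    have h2 : nr (-(r : Ei)) = (r : ℤ) ^ 2 := by
      rw [← Pool.Agent.Y692.QS.nr_nat r]
      simp [Pool.Agent.Y692.QS.nr]
    rw [h2]
    have h3 : ((r : ℤ) ^ 2) = ((r ^ 2 : ℕ) : ℤ) := by push_cast; rfl
    rw [h3, Int.natAbs_natCast]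
  have hdvd : ∀ r s : ℕ, r.Prime → s.Prime → s % 3 = 2 → r ≠ s →
      -(s : 𝓞 K) ∣ (-(r : 𝓞 K)) ^ ((s ^ 2 - 1) / 3) - 1 := by
    intro r s hr hs hs3 hrs
    rw [neg_dvd]
    have h1 := map_dvd (Int.castRingHom (𝓞 K)) (ferm hr hs hs3 hrs)
    simpa using h1
  have hF : IsFact (j w) ((p : 𝓞 K) * (q : 𝓞 K)) 2 ![-(p : 𝓞 K), -(q : 𝓞 K)] (fun _ _ => 0) := by
    refine ⟨fun i => ?_, ?_, fun i k hik => ?_⟩
    · fin_cases i
      · exact ⟨hprime p hp hp3, hthree p hp3⟩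
      · exact ⟨hprime q hq hq3, hthree q hq3⟩
    · rw [Fin.prod_univ_two]
      show (p : 𝓞 K) * q = -p * -q
      ring
    · rw [ZMod.val_zero, pow_zero]
      fin_cases i <;> fin_cases k
      · exact absurd rfl hik
      · show -(q : 𝓞 K) ∣ (-(p : 𝓞 K)) ^ (((Algebra.norm ℤ (-(q : 𝓞 K))).natAbs - 1) / 3) - 1
        rw [hnorm]
        exact hdvd p q hp hq hq3 hne
      · show -(p : 𝓞 K) ∣ (-(q : 𝓞 K)) ^ (((Algebra.norm ℤ (-(p : 𝓞 K))).natAbs - 1) / 3) - 1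
        rw [hnorm]
        exact hdvd q p hq hp hp3 hne.symm
      · exact absurd rfl hik
  have hω : (j w) ^ 2 + j w + 1 = 0 := by
    have hww : (w : Ei) ^ 2 + w + 1 = 0 := by decide
    rw [← map_pow, ← map_one j, ← map_add, ← map_add, hww, map_zero]
  rw [h3 _ 2 _ _ hω hF]
  unfold nL
  refine (Nat.card_le_card_of_injective Subtype.val Subtype.val_injective).trans ?_
  rw [Nat.card_fun, Nat.card_zmod, Nat.card_fin]
  norm_num

omit [IsCyclotomicExtension {3} ℚ K] in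
lemma no_cube (h2 : Module.finrank ℚ K = 2) {m l : ℕ} (hl : l.Prime) (hm : m ≠ 0)
    (hv : padicValNat l m % 3 ≠ 0) (t : K) : t ^ 3 ≠ (m : K) := by
  intro h
  have : Fact l.Prime := ⟨hl⟩
  have h1 := congrArg (Algebra.norm ℚ) h
  have h3 : Algebra.norm ℚ (m : K) = (m : ℚ) ^ 2 := by
    have := Algebra.norm_algebraMap (S := K) (m : ℚ)
    rw [map_natCast, h2] at this
    exact this
  rw [map_pow, h3] at h1
  have hm' : (m : ℚ) ≠ 0 := by exact_mod_cast hm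
  have hN : Algebra.norm ℚ t ≠ 0 := by
    intro h0
    rw [h0] at h1
    exact pow_ne_zero 2 hm' (by rw [← h1]; norm_num)
  have h4 := congrArg (padicValRat l) h1
  rw [padicValRat.pow, padicValRat.pow, padicValRat.of_nat] at h4
  simp only [Nat.cast_ofNat] at h4
  omega

/-- all the conclusions for one curve -/
theorem two (hp : p.Prime) (hq : q.Prime) (hp3 : p % 3 = 2) (hq3 : q % 3 = 2) (hne : p ≠ q)
    (h9 : p * q % 9 ≠ 1) {X Y Z : K} (hX : X ≠ 0) (hY : Y ≠ 0) (hZ : Z ≠ 0)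
    (h : (p : K) * X ^ 3 + (q : K) * Y ^ 3 = Z ^ 3) :
    Module.Finite ℤ (E1 ((p : K) * q)).toAffine.Point ∧
    Module.finrank ℤ (E1 ((p : K) * q)).toAffine.Point = 2 ∧
    (∀ (n : ℕ) (x : Pool.Agent.TH841.NF.D.Sha (E1 ((p : K) * q))), 3 ^ n • x = 0 → x = 0) := by
  have h2 : Module.finrank ℚ K = 2 := by
    rw [IsCyclotomicExtension.Rat.finrank 3 K]
    decide
  obtain ⟨ω, hω⟩ := Pool.Agent.R419.KL.ex_root K
  have hpp := hp.ne_zero
  have hqq := hq.ne_zero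
  have v1 : padicValNat p q = 0 := by
    have : Fact p.Prime := ⟨hp⟩
    have : Fact q.Prime := ⟨hq⟩
    exact padicValNat_primes hne
  have v2 : padicValNat q p = 0 := by
    have : Fact q.Prime := ⟨hq⟩
    have : Fact p.Prime := ⟨hp⟩
    exact padicValNat_primes hne.symm
  have c1 : ∀ t : K, t ^ 3 ≠ (p : K) * q := by
    have := no_cube K h2 (m := p * q) (l := p) hp (mul_ne_zero hpp hqq) (by
      have : Fact p.Prime := ⟨hp⟩
      rw [padicValNat.mul hpp hqq, padicValNat_self, v1]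
      norm_num)
    intro t ht
    exact this t (by push_cast; exact ht)
  have c2 : ∀ t : K, t ^ 3 ≠ (p : K) :=
    no_cube K h2 (m := p) (l := p) hp hpp (by
      have : Fact p.Prime := ⟨hp⟩
      rw [padicValNat_self]
      norm_num)
  have c3 : ∀ t : K, t ^ 3 ≠ (q : K) :=
    no_cube K h2 (m := q) (l := q) hq hqq (by
      have : Fact q.Prime := ⟨hq⟩
      rw [padicValNat_self]
      norm_num)
  have c4 : ∀ t : K, t ^ 3 ≠ (p : K) ^ 2 * q := by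
    have := no_cube K h2 (m := p ^ 2 * q) (l := q) hq (mul_ne_zero (pow_ne_zero _ hpp) hqq) (by
      have : Fact q.Prime := ⟨hq⟩
      rw [padicValNat.mul (pow_ne_zero _ hpp) hqq, padicValNat_self, padicValNat.pow, v2]
      norm_num)
    intro t ht
    exact this t (by push_cast; exact ht)
  have hinf := infinite_of hω (Nat.cast_ne_zero.2 hpp) (Nat.cast_ne_zero.2 hqq) hX hY hZ h c1 c2 c3 c4
  have hcls := clsK K hp hq hp3 hq3 hne h9
  have hclsC : ClsKC ((p : 𝓞 K) * (q : 𝓞 K)) := by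
    refine ⟨hcls.1, fun x hx => hcls.2.1 x ?_, hcls.2.2⟩
    exact dvd_trans ⟨x, by ring⟩ hx
  have hle := selK_le K hp hq hp3 hq3 hne h9
  have hD : ((((p : 𝓞 K) * (q : 𝓞 K) : 𝓞 K)) : K) = (p : K) * q := by
    push_cast
    rfl
  have hfg := Pool.Agent.R419.MX.fg_cls hclsC
  have hsm := Pool.Agent.R419.MX.small hclsC hle
  rw [hD] at hfg hsm
  rcases hsm with h5 | ⟨h5, h6, -⟩
  · exact absurd h5 hinf
  · exact ⟨hfg, h5, h6⟩

end

end Pool.Agent.J6H22.BK
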