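import Pool.Agent.J6H22.BK.Gen
import Pool.Agent.J6H22.BK.Two
import Pool.Agent.J6H22.BK.Gold
import Pool.Agent.N883.FG.Bk

/-!
# Assembly
-/

set_option autoImplicit false
set_option linter.unusedVariables false

open scoped Classical

namespace Pool.Agent.J6H22.BK

open NumberField WeierstrassCurve IsDedekindDomain TensorProduct
open Pool.Agent.Y696.CTK (ED)
open Pool.Agent.XL6 (SelK)
open Pool.Agent.Y703.XL.Inf (E1 cbf_sha)
open Pool.Agent.TH841.NF.D (Sha shaCoc)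
open Pool.Agent.TH841.SH.D (Pt act Gal Coch)
open Pool.Agent.N883.DQ (ED_ne)
open Pool.Agent.Y700 (VR)

section
variable {K : Type} [Field K] [NumberField K]

/-- the conclusions for one curve, rank `r` -/
def Con (W : WeierstrassCurve K) (r : ℕ) : Prop :=
  W.IsElliptic ∧ Module.Finite ℤ W.toAffine.Point ∧ Module.finrank ℤ W.toAffine.Point = r ∧
    ∀ (n : ℕ) (x : Sha W), 3 ^ n • x = 0 → x = 0

lemma ell_of {D : K} (hD : D ≠ 0) : (E1 D).IsElliptic := by
  have h : (ED D).Δ ≠ 0 := ED_ne hD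
  exact ⟨isUnit_iff_ne_zero.2 h⟩

lemma con_two {D : K} (hD : D ≠ 0) (h : Concl D) : Con (E1 D) 2 :=
  ⟨ell_of hD, h.1, h.2.1, h.2.2⟩

lemma con_one [IsCyclotomicExtension {3} ℚ K] : Con (E1 (1 : K)) 0 := by
  obtain ⟨⟨j, hj⟩, -⟩ := Pool.Agent.Y455.CTK.jex K
  have hf : Finite (E1 (1 : K)).toAffine.Point := Pool.Agent.Y696.CTE.fin_one (K := K)
  refine ⟨ell_of one_ne_zero, Module.Finite.of_finite, ?_, Pool.Agent.Y696.CTE.partsE.sh1 K j⟩
  rw [Module.finrank_eq_zero_iff_isTorsion]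
  intro x
  refine ⟨⟨(Nat.card (E1 (1 : K)).toAffine.Point : ℤ), ?_⟩, ?_⟩
  · exact mem_nonZeroDivisors_of_ne_zero (by exact_mod_cast Nat.card_pos.ne')
  · show (Nat.card (E1 (1 : K)).toAffine.Point : ℤ) • x = 0
    rw [natCast_zsmul]
    exact card_nsmul_eq_zero'

lemma con_vr {d d' u : K} {r : ℕ} (hu : u ≠ 0) (hd : d ≠ 0) (h : d' = d * u ^ 3)
    (hc : Con (E1 d) r) : Con (E1 d') r := by
  obtain ⟨-, h1, h2, h3⟩ := hc
  have hvr : VR (ED d') (ED d) u 0 0 0 := by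
    refine ⟨hu, ?_, ?_, ?_, ?_, ?_⟩ <;> simp [ED]
    rw [h]
    ring
  have hd' : d' ≠ 0 := by
    rw [h]
    exact mul_ne_zero hd (pow_ne_zero 3 hu)
  have hΔ : (ED d).Δ ≠ 0 := ED_ne hd
  let e : (E1 d).toAffine.Point ≃+ (E1 d').toAffine.Point := hvr.equiv hΔ
  let I : Sha (E1 d) ≃+ Sha (E1 d') := (Pool.Agent.Y655.XT.isoVR hvr hΔ).sha
  refine ⟨ell_of hd', Module.Finite.equiv e.toIntLinearEquiv, ?_, fun n x hx => ?_⟩
  · rw [← h2]
    exact (LinearEquiv.finrank_eq e.toIntLinearEquiv).symm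
  · have h4 := h3 n (I.symm x) (by rw [← map_nsmul, hx, map_zero])
    have h5 := congrArg I h4
    rwa [I.apply_symm_apply, map_zero] at h5

/-- the isomorphism of Bloch and Kato for the curve `W` -/
def BKIso (p : ℕ) [Fact p.Prime] (W : WeierstrassCurve K) : Prop :=
  ∃ j : W.toAffine.Point →+ Pt W (AlgebraicClosure K),
    (∀ (x y : K) (h : W.toAffine.Nonsingular x y), ∃ h', j (.some x y h) =
      (Affine.Point.some (algebraMap K (AlgebraicClosure K) x)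
        (algebraMap K (AlgebraicClosure K) y) h' : Pt W (AlgebraicClosure K))) ∧
    ∃ φ : W.toAffine.Point ⊗[ℤ] ℚ_[p] ≃+ H1f p W,
      ∀ (P : W.toAffine.Point) (z : ℤ_[p]) (k : ℕ) (Q : ℕ → Pt W (AlgebraicClosure K)),
        Q 0 = j P → (∀ n, p • Q (n + 1) = Q n) →
        ∃ c : SelC p (shS W),
          (∀ σ n, c.1 σ n = z.appr (n + k) • (act W σ.toAlgHom (Q (n + k)) - Q (n + k))) ∧
          φ (P ⊗ₜ ((z : ℚ_[p]) / (p : ℚ_[p]) ^ k)) = QuotientAddGroup.mk c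

theorem iso_of {D z : K} (hD : D ≠ 0) (hz : z ^ 2 + z + 1 = 0) {r : ℕ} (h : Con (E1 D) r) :
    BKIso 3 (E1 D) :=
  ell 3 (E1 D) (fun P => cbf_sha P) (Pool.Agent.R419.KL.div3 hD hz) h.2.1 h.2.2.2

/-- the five curves of the threefold `x₀³ + x₁³ + D (x₂³ + x₃³ + x₄³) = 0` -/
theorem three [IsCyclotomicExtension {3} ℚ K] {D : 𝓞 K} (hD : D ≠ 0) (h : Concl (D : K)) :
    (∀ v : HeightOneSpectrum (𝓞 K), (3 : 𝓞 K) ∉ v.asIdeal → D ∉ v.asIdeal →
      Pool.Agent.N883.FG.DecAt 1 ![1, 1, D, D, D] v) ∧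
    ∀ i : Fin 5, Con (E1 ((Pool.Agent.N883.DQ.Dt ![1, 1, D, D, D] {i} : 𝓞 K) : K))
      (if i < 2 then 0 else 2) := by
  have c0 : (D : K) ≠ 0 := fun h => hD (RingOfIntegers.ext (by rw [h]; rfl))
  constructor
  · intro v h3 hv
    apply Pool.Agent.N883.FG.decAt (by norm_num) _ v h3
    have h1 : (1 : 𝓞 K) ∉ v.asIdeal := fun h => v.isPrime.ne_top ((Ideal.eq_top_iff_one _).2 h)
    intro i
    fin_cases i
    · exact h1
    · exact h1
    · exact hv
    · exact hv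
    · exact hv
  · have e1 : ∀ i : Fin 5, Pool.Agent.N883.DQ.Dt ![1, 1, D, D, D] {i} =
        D ^ 3 * (![1, 1, D, D, D] : Fin 5 → 𝓞 K) i := by
      intro i
      unfold Pool.Agent.N883.DQ.Dt
      rw [Finset.prod_singleton]
      congr 1
      simp [Fin.prod_univ_succ]
      ring
    have k1 : Con (E1 ((D ^ 3 * 1 : 𝓞 K) : K)) 0 :=
      con_vr c0 one_ne_zero (by push_cast; ring) con_one
    have k2 : Con (E1 ((D ^ 3 * D : 𝓞 K) : K)) 2 :=
      con_vr c0 c0 (by push_cast; ring) (con_two c0 h)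
    intro i
    rw [e1]
    fin_cases i
    · exact k1
    · exact k1
    · exact k2
    · exact k2
    · exact k2

/-- the products of two rational primes -/
theorem pq [IsCyclotomicExtension {3} ℚ K] {p q z : ℕ} (hp : p.Prime) (hq : q.Prime)
    (hp3 : p % 3 = 2) (hq3 : q % 3 = 2) (hne : p ≠ q) (h : p + q = z ^ 3) :
    Concl (((p * q : ℕ) : 𝓞 K) : K) := by
  have hz3 : z % 3 = 1 := by
    have h1 : z ^ 3 % 3 = 1 := by omega
    rw [Nat.pow_mod] at h1
    have h2 : z % 3 < 3 := Nat.mod_lt _ (by norm_num)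
    interval_cases z % 3 <;> simp_all
  have h9 : p * q % 9 ≠ 1 := by
    have h1 : z ^ 3 % 9 = 1 := by
      obtain ⟨k, hk⟩ : ∃ k, z = 3 * k + 1 := ⟨z / 3, by omega⟩
      rw [hk]
      have : (3 * k + 1) ^ 3 = 9 * (3 * k ^ 3 + 3 * k ^ 2 + k) + 1 := by ring
      omega
    rw [← h] at h1
    rw [Nat.mul_mod]
    have h2 : p % 9 = 2 ∨ p % 9 = 5 ∨ p % 9 = 8 := by omega
    rcases h2 with h2 | h2 | h2
    · have h3 : q % 9 = 8 := by omega
      rw [h2, h3]
      norm_num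
    · have h3 : q % 9 = 5 := by omega
      rw [h2, h3]
      norm_num
    · have h3 : q % 9 = 2 := by omega
      rw [h2, h3]
      norm_num
  have hz0 : (z : K) ≠ 0 := by
    have : z ≠ 0 := by
      rintro rfl
      simp at hz3
    exact Nat.cast_ne_zero.2 this
  have key := two K hp hq hp3 hq3 hne h9 (X := 1) (Y := 1) (Z := z) one_ne_zero one_ne_zero hz0 (by
    rw [one_pow, mul_one, mul_one]
    exact_mod_cast h)
  have e : (((p * q : ℕ) : 𝓞 K) : K) = (p : K) * q := by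
    push_cast
    rfl
  rw [e]
  exact key

end

end Pool.Agent.J6H22.BK
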