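import Pool.Agent.R419.MX.Fin
import Pool.Agent.R419.KF.Fin
import Pool.Agent.R419.KL.Fin
import Pool.Agent.J6H22.BK.Inf
import Pool.Agent.J6H22.BK.Ell

/-!
# Two prime divisors
-/

set_option autoImplicit false
set_option linter.unusedVariables false

open scoped Classical

namespace Pool.Agent.J6H22.BK

open NumberField WeierstrassCurve
open Pool.Agent.Y692.QS (Ei w nr)
open Pool.Agent.Y696.CTK (ED)
open Pool.Agent.XL6 (SelK)
open Pool.Agent.R419.KF (ClsKC IsFactE)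
open Pool.Agent.R419.KL (nLE)
open Pool.Agent.Y703.XL.Inf (E1)
open Pool.Agent.TH841.NF.D (Sha)

variable {K : Type} [Field K] [NumberField K]

/-- The Selmer group of `√-3` has at most nine elements if `D` has at most two prime divisors. -/
theorem sel_nine [IsCyclotomicExtension {3} ℚ K] {D : 𝓞 K} (hD : ClsKC D) {π₁ π₂ : 𝓞 K}
    (h2 : ∀ π : 𝓞 K, Prime π → π ∣ D → Associated π π₁ ∨ Associated π π₂) :
    (SelK (D : K)).ncard ≤ 9 := by
  obtain ⟨⟨j, hj⟩, -⟩ := Pool.Agent.Y455.CTK.jex K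
  obtain ⟨⟨⟨ω, n, π, e, χ, hω, hF⟩, -⟩, -⟩ := Pool.Agent.R419.KF.facts j hj hD
  obtain ⟨-, hsel⟩ := Pool.Agent.R419.KL.oneK hD
  rw [hsel ω n π e χ hω hF]
  obtain ⟨f1, f2, f3⟩ := hF
  have hdvd : ∀ i, π i ∣ D := by
    intro i
    rw [f2]
    refine dvd_trans ?_ (Finset.dvd_prod_of_mem _ (Finset.mem_univ i))
    exact dvd_pow_self _ (by
      intro h
      exact (f1 i).2.2 ((ZMod.val_eq_zero _).1 h))
  have hn : n ≤ 2 := by
    have hinj : Function.Injective (fun i : Fin n => decide (Associated (π i) π₁)) := by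
      intro i k hik
      by_contra hne
      have h3 : Associated (π i) π₁ ↔ Associated (π k) π₁ := by
        have := hik
        simpa using this
      have h4 : Associated (π k) (π i) := by
        by_cases h5 : Associated (π i) π₁
        · exact (h3.1 h5).trans h5.symm
        · have h6 := (h2 _ (f1 i).1 (hdvd i)).resolve_left h5
          have h7 := (h2 _ (f1 k).1 (hdvd k)).resolve_left (fun h => h5 (h3.2 h))
          exact h7.trans h6.symm
      exact (f3 i k hne).1 h4.dvd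
    have := Fintype.card_le_of_injective _ hinj
    simpa using this
  unfold nLE
  refine (Nat.card_le_card_of_injective Subtype.val Subtype.val_injective).trans ?_
  rw [Nat.card_fun, Nat.card_zmod, Nat.card_fin]
  calc 3 ^ n ≤ 3 ^ 2 := Nat.pow_le_pow_right (by norm_num) hn
    _ = 9 := by norm_num

omit [NumberField K] in
lemma no_cube_of {π A c : 𝓞 K} (hπ : Prime π) {a : ℕ} (ha : a % 3 ≠ 0) (hc : ¬ π ∣ c)
    (hA : A = π ^ a * c) (t : K) : t ^ 3 ≠ (A : K) := by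
  intro h
  have ht : _root_.IsIntegral ℤ t := by
    apply _root_.IsIntegral.of_pow (n := 3) (by norm_num)
    rw [h]
    exact RingOfIntegers.isIntegral_coe A
  obtain ⟨s, rfl⟩ : ∃ s : 𝓞 K, (s : K) = t := ⟨⟨t, ht⟩, rfl⟩
  have h1 : s ^ 3 = A := by
    apply RingOfIntegers.coe_injective
    rw [map_pow]
    exact h
  have h2 : emultiplicity π (s ^ 3) = 3 * emultiplicity π s := emultiplicity_pow hπ
  have h3 : emultiplicity π (π ^ a * c) = a := by
    rw [emultiplicity_mul hπ, emultiplicity_pow_self_of_prime hπ, emultiplicity_eq_zero.2 hc,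
      add_zero]
  rw [h1, hA, h3] at h2
  have h4 : emultiplicity π s ≠ ⊤ := by
    intro h4
    rw [h4, ENat.mul_top (by norm_num)] at h2
    exact ENat.natCast_ne_top a h2
  obtain ⟨k, hk⟩ := ENat.ne_top_iff_exists.1 h4
  rw [← hk] at h2
  have h5 : ((a : ℕ) : ℕ∞) = ((3 * k : ℕ) : ℕ∞) := by
    push_cast
    exact h2
  have h6 : a = 3 * k := by exact_mod_cast h5
  omega

/-- the conclusions for one curve -/
def Concl (D : K) : Prop :=
  Module.Finite ℤ (E1 D).toAffine.Point ∧ Module.finrank ℤ (E1 D).toAffine.Point = 2 ∧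
    ∀ (n : ℕ) (x : Sha (E1 D)), 3 ^ n • x = 0 → x = 0

/-- **Two prime divisors.** -/
theorem gen [IsCyclotomicExtension {3} ℚ K] {π₁ π₂ : 𝓞 K} (h1 : Prime π₁) (h2 : Prime π₂)
    (h12 : ¬ Associated π₁ π₂) {a b : ℕ} (ha : a = 1 ∨ a = 2) (hb : b = 1 ∨ b = 2)
    (h3 : (3 : 𝓞 K) ∣ π₁ ^ a * π₂ ^ b - 1)
    (h9 : ¬ (9 : ℤ) ∣ Algebra.norm ℤ (π₁ ^ a * π₂ ^ b) - 1) {X Y Z : K} (hX : X ≠ 0) (hY : Y ≠ 0)
    (hZ : Z ≠ 0) (h : (π₁ : K) ^ a * X ^ 3 + (π₂ : K) ^ b * Y ^ 3 = Z ^ 3) :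
    Concl ((π₁ : K) ^ a * (π₂ : K) ^ b) := by
  have n12 : ¬ π₁ ∣ π₂ := fun hd => h12 (h1.associated_of_dvd h2 hd)
  have n21 : ¬ π₂ ∣ π₁ := fun hd => h12 (h2.associated_of_dvd h1 hd).symm
  have n12' : ∀ k, ¬ π₁ ∣ π₂ ^ k := fun k hd => n12 (h1.dvd_of_dvd_pow hd)
  have n21' : ∀ k, ¬ π₂ ∣ π₁ ^ k := fun k hd => n21 (h2.dvd_of_dvd_pow hd)
  have ha3 : a % 3 ≠ 0 := by omega
  have hb3 : b % 3 ≠ 0 := by omega
  have hm1 : ∀ π : 𝓞 K, Prime π → π ∣ π₁ ^ a * π₂ ^ b → Associated π π₁ ∨ Associated π π₂ := by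
    intro π hπ hd
    rcases hπ.dvd_or_dvd hd with hd | hd
    · exact Or.inl (hπ.associated_of_dvd h1 (hπ.dvd_of_dvd_pow hd))
    · exact Or.inr (hπ.associated_of_dvd h2 (hπ.dvd_of_dvd_pow hd))
  have hcube : ∀ x : 𝓞 K, x ^ 3 ∣ π₁ ^ a * π₂ ^ b → IsUnit x := by
    intro x hx
    by_contra hu
    have hx0 : x ≠ 0 := by
      rintro rfl
      rw [zero_pow three_ne_zero, zero_dvd_iff] at hx
      exact mul_ne_zero (pow_ne_zero _ h1.ne_zero) (pow_ne_zero _ h2.ne_zero) hx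
    obtain ⟨⟨j, hj⟩, -⟩ := Pool.Agent.Y455.CTK.jex K
    obtain ⟨π, hπ, hd⟩ : ∃ π : 𝓞 K, Prime π ∧ π ∣ x := by
      have hu' : ¬ IsUnit (j.symm x) := fun h => hu ((MulEquiv.isUnit_map j.symm).1 h)
      obtain ⟨ρ, hρ, hd⟩ := WfDvdMonoid.exists_irreducible_factor hu'
        (by rwa [Ne, EmbeddingLike.map_eq_zero_iff])
      refine ⟨j ρ, (MulEquiv.prime_iff j.toMulEquiv).2 hρ.prime, ?_⟩
      have := map_dvd j hd
      rwa [RingEquiv.apply_symm_apply] at this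
    have hd3 : π ^ 3 ∣ π₁ ^ a * π₂ ^ b := (pow_dvd_pow_of_dvd hd 3).trans hx
    rcases hm1 π hπ ((dvd_pow_self π three_ne_zero).trans hd3) with hA | hA
    · have hd4 : π₁ ^ 3 ∣ π₁ ^ a * π₂ ^ b := (hA.pow_pow (n := 3)).dvd_iff_dvd_left.1 hd3
      have e1 : π₁ ^ 3 = π₁ ^ a * π₁ ^ (3 - a) := by
        rw [← pow_add]
        congr 1
        omega
      rw [e1] at hd4
      have hd5 := (mul_dvd_mul_iff_left (pow_ne_zero a h1.ne_zero)).1 hd4
      exact n12' b ((dvd_pow_self π₁ (by omega)).trans hd5)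
    · have hd4 : π₂ ^ 3 ∣ π₁ ^ a * π₂ ^ b := (hA.pow_pow (n := 3)).dvd_iff_dvd_left.1 hd3
      have e1 : π₂ ^ 3 = π₂ ^ (3 - b) * π₂ ^ b := by
        rw [← pow_add]
        congr 1
        omega
      rw [e1] at hd4
      have hd5 := (mul_dvd_mul_iff_right (pow_ne_zero b h2.ne_zero)).1 hd4
      exact n21' a ((dvd_pow_self π₂ (by omega)).trans hd5)
  have hcls : ClsKC (π₁ ^ a * π₂ ^ b) := ⟨h3, hcube, h9⟩
  have hle := sel_nine hcls hm1
  have hfg := Pool.Agent.R419.MX.fg_cls hcls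
  have hsm := Pool.Agent.R419.MX.small hcls hle
  have c0 : ∀ x : 𝓞 K, x ≠ 0 → (x : K) ≠ 0 := fun x hx h => hx (RingOfIntegers.ext (by rw [h]; rfl))
  have hD : ((π₁ ^ a * π₂ ^ b : 𝓞 K) : K) = (π₁ : K) ^ a * (π₂ : K) ^ b := by
    push_cast
    rfl
  obtain ⟨ω, hω⟩ := Pool.Agent.R419.KL.ex_root K
  have hinf := infinite_of hω (pow_ne_zero a (c0 _ h1.ne_zero)) (pow_ne_zero b (c0 _ h2.ne_zero))
    hX hY hZ h (fun t ht => no_cube_of h1 ha3 (n12' b) rfl t (by rw [ht, hD]))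
    (fun t ht => no_cube_of h1 ha3 (c := 1) (fun hd => h1.not_isUnit (isUnit_of_dvd_one hd)) rfl t (by
      rw [ht]; push_cast; ring))
    (fun t ht => no_cube_of h2 hb3 (c := 1) (fun hd => h2.not_isUnit (isUnit_of_dvd_one hd)) rfl t (by
      rw [ht]; push_cast; ring))
    (fun t ht => no_cube_of h1 (a := 2 * a) (by omega) (n12' b) rfl t (by
      rw [ht]; push_cast; ring))
  rw [hD] at hfg hsm
  rcases hsm with h5 | ⟨h5, h6, -⟩
  · exact absurd h5 hinf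
  · exact ⟨hfg, h5, h6⟩

end Pool.Agent.J6H22.BK
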